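import Pool.Agent.Helper32_NJ.An2

/-!
# Primes `a p + b q` with `p`, `q` in residue classes
-/

set_option autoImplicit false

namespace Pool.Agent.NJ

open Real Filter Topology
open Pool.Agent.Common_Sieve
open Pool.Agent.Helper91_SP
open Pool.Agent.Helper71_SP (Ew TB tb)

lemma exists_nat_residue (u : ℤ) (M : ℕ) (hM : 0 < M) (hu : IsCoprime u (M : ℤ)) :
    ∃ u' : ℕ, (u' : ℤ) ≡ u [ZMOD M] ∧ Nat.Coprime u' M := by
  obtain ⟨u', hu'⟩ : ∃ u' : ℕ, (u' : ℤ) ≡ u [ZMOD M] := by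
    refine ⟨(u % M).toNat, ?_⟩
    have hM' : (M : ℤ) ≠ 0 := by exact_mod_cast hM.ne'
    rw [Int.toNat_of_nonneg (Int.emod_nonneg _ hM')]
    exact Int.mod_modEq _ _
  refine ⟨u', hu', ?_⟩
  rw [← Nat.isCoprime_iff_coprime]
  obtain ⟨t, ht⟩ := hu'.symm.dvd
  have : (u' : ℤ) = u + M * t := by linarith
  rw [this]
  exact (IsCoprime.add_mul_left_left_iff).2 hu

theorem an_core (a b u v : ℤ) (M : ℕ) (x0 x1 y0 y1 : ℝ) (hab : IsCoprime a b)
    (ha : a ≠ 0) (hb : b ≠ 0)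
    (hM : 0 < M) (h2M : 2 ∣ M) (hu : IsCoprime u (M : ℤ)) (hv : IsCoprime v (M : ℤ))
    (huv : IsCoprime (a * u + b * v) (M : ℤ))
    (hx0 : 0 < x0) (hx01 : x0 < x1) (hy0 : 0 < y0) (hy01 : y0 < y1)
    (hpos : ∀ x ∈ Set.Icc x0 x1, ∀ y ∈ Set.Icc y0 y1, 0 < (a : ℝ) * x + b * y) (N' : ℕ) :
    ∃ k : ℕ, N' ≤ k ∧ ∃ x ∈ PW k x0 x1, ∃ y ∈ PW k y0 y1, (x : ℤ) ≡ u [ZMOD M] ∧
      (y : ℤ) ≡ v [ZMOD M] ∧ PInt (a * x + b * y) := by
  classical
  by_contra hcon
  push Not at hcon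
  have hφM : (0 : ℝ) < M.totient := by exact_mod_cast Nat.totient_pos.2 hM
  obtain ⟨u', hu', hu'co⟩ := exists_nat_residue u M hM hu
  set c : ℝ := (y1 - y0) / (8 * M.totient) with hc
  set c' : ℝ := (x1 - x0) / (4 * M.totient) with hc'
  have hc0 : 0 < c := div_pos (by linarith) (by positivity)
  have hc'0 : 0 < c' := div_pos (by linarith) (by positivity)
  obtain ⟨C3, hC31, hC3x, hC3y, hC3⟩ : ∃ C3 : ℕ, 1 ≤ C3 ∧ x1 ≤ C3 ∧ y1 ≤ C3 ∧
      |(a : ℝ)| * x1 + |(b : ℝ)| * y1 ≤ C3 := by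
    refine ⟨1 + ⌈x1⌉₊ + ⌈y1⌉₊ + ⌈|(a : ℝ)| * x1 + |(b : ℝ)| * y1⌉₊, by omega, ?_, ?_, ?_⟩
    · exact (Nat.le_ceil _).trans (Nat.cast_le.2 (by omega))
    · exact (Nat.le_ceil _).trans (Nat.cast_le.2 (by omega))
    · exact (Nat.le_ceil _).trans (Nat.cast_le.2 (by omega))
  have hC30 : (0 : ℝ) < C3 := by exact_mod_cast hC31
  have hε : 0 < c * c' / (4 * (C3 : ℝ) ^ 2) := by positivity
  obtain ⟨w, hw⟩ := tb a b ha hb _ hε
  obtain ⟨N0, hN0⟩ := hw w le_rfl
  obtain ⟨K1, hK1⟩ := mainTerm a b u v M x0 x1 y0 y1 hab hM h2M hv huv hx0 hy0 hy01 hpos w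
  obtain ⟨K3, hK3⟩ := ap_lower M hM u' hu'co x0 x1 hx0 hx01
  obtain ⟨C, hC⟩ := Chebyshev.psi_sub_theta_le_mul_sqrt
  obtain ⟨K2, hK2⟩ := sqrt_log_small (max C 0 * √C3) (c / 2)
    (mul_nonneg (le_max_right _ _) (sqrt_nonneg _)) (by linarith)
  set k := N0 + K1 + K2 + K3 + N' + C3 + 3 with hk
  have hk3' : (3 : ℝ) ≤ k := by
    have : 3 ≤ k := by omega
    exact_mod_cast this
  have hk0 : (0 : ℝ) < k := by linarith
  have hL : 0 < log k := log_pos (by linarith)
  set N := C3 * k with hN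
  have hNk : k ≤ N := by rw [hN]; exact Nat.le_mul_of_pos_left k hC31
  have hNk' : (k : ℝ) ≤ N := by exact_mod_cast hNk
  have hlogN1 : log k ≤ log N := log_le_log hk0 hNk'
  set X := (PW k x0 x1).filter (fun x : ℕ => (x : ℤ) ≡ u [ZMOD M]) with hX
  set Y := (PW k y0 y1).filter (fun y : ℕ => (y : ℤ) ≡ v [ZMOD M]) with hY
  have hPWN : ∀ u0 u1 : ℝ, u1 ≤ C3 → PW k u0 u1 ⊆ (Finset.Icc 1 N).filter Nat.Prime := by
    intro u0 u1 hu p hp
    obtain ⟨hp1, hp2, hp3⟩ := mem_PW' hp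
    rw [Finset.mem_filter, Finset.mem_Icc]
    refine ⟨⟨hp1.pos, ?_⟩, hp1⟩
    have : (p : ℝ) ≤ C3 * k := hp3.trans (mul_le_mul_of_nonneg_right hu hk0.le)
    rw [hN]
    exact_mod_cast this
  have hTB' := hN0 N (by omega) X Y ((Finset.filter_subset _ _).trans (hPWN _ _ hC3x))
    ((Finset.filter_subset _ _).trans (hPWN _ _ hC3y))
  -- lower bound for the number of x
  have hXcard : c' * k / log k ≤ X.card := by
    have h1 := hK3 k (by omega)
    have h2 : (PW k x0 x1).filter (fun p => p % M = u' % M) = X := by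
      rw [hX]
      apply Finset.filter_congr
      intro p _
      constructor
      · intro h
        exact (Int.natCast_modEq_iff.2 h).trans hu'
      · intro h
        exact Int.natCast_modEq_iff.1 (h.trans hu'.symm)
    rw [h2] at h1
    have h3 : c' * k / log k = ((x1 - x0) / 4 * k / log k) / M.totient := by
      rw [hc']; field_simp
    rw [h3, div_le_iff₀ hφM]
    linarith
  -- inner sums
  have hinner : ∀ x ∈ X, ∑ y ∈ Y,
        (if 1 ≤ a * (x : ℤ) + b * (y : ℤ) ∧ a * (x : ℤ) + b * (y : ℤ) ≤ (N : ℤ)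
          then Ew w (a * (x : ℤ) + b * (y : ℤ)).toNat else 0) ≤ -(c / 2 * k / log k) := by
    intro x hx
    rw [hX, Finset.mem_filter] at hx
    obtain ⟨hxPW, hxu⟩ := hx
    obtain ⟨hxp, hxw⟩ := mem_PW' hxPW
    have hv : ∀ y ∈ Y, 1 ≤ a * (x : ℤ) + b * (y : ℤ) ∧ a * (x : ℤ) + b * (y : ℤ) ≤ (N : ℤ) := by
      intro y hy
      obtain ⟨hyp, hyw⟩ := mem_PW' (Finset.mem_filter.1 hy).1
      refine ⟨pos_of_window hpos (by omega) hxw hyw, ?_⟩
      have h1 : (a : ℝ) * x + b * y ≤ N := by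
        have h2 : (a : ℝ) * x ≤ |(a : ℝ)| * (x1 * k) :=
          mul_le_mul (le_abs_self _) hxw.2 (Nat.cast_nonneg _) (abs_nonneg _)
        have h3 : (b : ℝ) * y ≤ |(b : ℝ)| * (y1 * k) :=
          mul_le_mul (le_abs_self _) hyw.2 (Nat.cast_nonneg _) (abs_nonneg _)
        have h4 : (|(a : ℝ)| * x1 + |(b : ℝ)| * y1) * k ≤ C3 * k :=
          mul_le_mul_of_nonneg_right hC3 hk0.le
        rw [hN]; push_cast
        nlinarith
      exact_mod_cast h1
    have hnp : ∀ y ∈ Y, ¬ PInt (a * (x : ℤ) + b * (y : ℤ)) := by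
      intro y hy
      obtain ⟨hy1, hy2⟩ := Finset.mem_filter.1 hy
      exact hcon k (by omega) x hxPW y hy1 hxu hy2
    have h1 : ∑ y ∈ Y, (if 1 ≤ a * (x : ℤ) + b * (y : ℤ) ∧ a * (x : ℤ) + b * (y : ℤ) ≤ (N : ℤ)
          then Ew w (a * (x : ℤ) + b * (y : ℤ)).toNat else 0)
        = ∑ y ∈ Y, ArithmeticFunction.vonMangoldt (a * (x : ℤ) + b * (y : ℤ)).toNat
          - ((primorial w : ℝ) / (Nat.totient (primorial w))) *
            ((Y.filter (fun y : ℕ => Nat.Coprime (a * (x : ℤ) + b * (y : ℤ)).toNat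
              (primorial w))).card : ℝ) := by
      have h2 : ((primorial w : ℝ) / (Nat.totient (primorial w))) *
            ((Y.filter (fun y : ℕ => Nat.Coprime (a * (x : ℤ) + b * (y : ℤ)).toNat
              (primorial w))).card : ℝ)
          = ∑ y ∈ Y, (if Nat.Coprime (a * (x : ℤ) + b * (y : ℤ)).toNat (primorial w)
            then ((primorial w : ℝ) / (Nat.totient (primorial w))) else 0) := by
        rw [← Finset.sum_filter, Finset.sum_const, nsmul_eq_mul, mul_comm]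
      rw [h2, ← Finset.sum_sub_distrib]
      apply Finset.sum_congr rfl
      intro y hy
      rw [if_pos (hv y hy)]
      rfl
    rw [h1]
    have hmain : c * k / log k ≤ ((primorial w : ℝ) / (Nat.totient (primorial w))) *
            ((Y.filter (fun y : ℕ => Nat.Coprime (a * (x : ℤ) + b * (y : ℤ)).toNat
              (primorial w))).card : ℝ) := by
      have h2 := hK1 k (by omega) x hxp hxw.1 hxw.2 hxu
      rw [hY, Finset.filter_filter]
      exact h2
    have hΛ2 : ∑ y ∈ Y, ArithmeticFunction.vonMangoldt (a * (x : ℤ) + b * (y : ℤ)).toNat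
        ≤ c / 2 * k / log k := by
      have h2 : ∑ y ∈ Y, ArithmeticFunction.vonMangoldt (a * (x : ℤ) + b * (y : ℤ)).toNat
          = ∑ n ∈ Y.image (fun y : ℕ => (a * (x : ℤ) + b * (y : ℤ)).toNat),
            ArithmeticFunction.vonMangoldt n := by
        rw [Finset.sum_image]
        intro y hy y' hy' h
        rw [Finset.mem_coe] at hy hy'
        have h3 := hv y hy
        have h4 := hv y' hy'
        simp only at h
        have h5 : b * ((y : ℤ) - y') = 0 := by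
          have : a * (x : ℤ) + b * (y : ℤ) = a * (x : ℤ) + b * (y' : ℤ) := by omega
          linear_combination this
        rcases mul_eq_zero.1 h5 with h6 | h6
        · exact absurd h6 hb
        · omega
      rw [h2]
      calc _ ≤ ∑ n ∈ (Finset.Ioc 0 ⌊(N : ℝ)⌋₊).filter (fun n => ¬ n.Prime),
            ArithmeticFunction.vonMangoldt n := by
            apply Finset.sum_le_sum_of_subset_of_nonneg
            · intro n hn
              obtain ⟨y, hy, rfl⟩ := Finset.mem_image.1 hn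
              obtain ⟨hv1, hv2⟩ := hv y hy
              rw [Nat.floor_natCast, Finset.mem_filter, Finset.mem_Ioc]
              refine ⟨⟨by omega, by omega⟩, fun hpr => hnp y hy ⟨_, hpr, ?_⟩⟩
              rw [Int.toNat_of_nonneg (by omega)]
            · intro n _ _
              exact ArithmeticFunction.vonMangoldt_nonneg
        _ = Chebyshev.psi N - Chebyshev.theta N := nonprime_sum _
        _ ≤ C * √N := hC _
        _ ≤ max C 0 * √N := mul_le_mul_of_nonneg_right (le_max_left _ _) (sqrt_nonneg _)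
        _ = max C 0 * √C3 * √k := by
            rw [hN]; push_cast
            rw [sqrt_mul hC30.le, mul_assoc]
        _ ≤ _ := hK2 k (by omega)
    have e1 : c * k / log k = 2 * (c / 2 * k / log k) := by ring
    rw [e1] at hmain
    linarith
  have hsum : ∑ x ∈ X, ∑ y ∈ Y,
        (if 1 ≤ a * (x : ℤ) + b * (y : ℤ) ∧ a * (x : ℤ) + b * (y : ℤ) ≤ (N : ℤ)
          then Ew w (a * (x : ℤ) + b * (y : ℤ)).toNat else 0)
      ≤ X.card * (-(c / 2 * k / log k)) := by
    rw [← nsmul_eq_mul]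
    exact Finset.sum_le_card_nsmul _ _ _ hinner
  have h1 := (abs_le.1 hTB').1
  have h2 : (X.card : ℝ) * (c / 2 * k / log k)
      ≤ c * c' / (4 * (C3 : ℝ) ^ 2) * ((N : ℝ) / log N) ^ 2 := by linarith
  have h3 : ((N : ℝ) / log N) ^ 2 ≤ ((C3 : ℝ) * k / log k) ^ 2 := by
    apply pow_le_pow_left₀ (by positivity)
    rw [hN]; push_cast
    apply div_le_div_of_nonneg_left (by positivity) hL
    rw [hN] at hlogN1
    push_cast at hlogN1
    exact hlogN1
  have h4 : (c' * k / log k) * (c / 2 * k / log k)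
      ≤ c * c' / (4 * (C3 : ℝ) ^ 2) * ((C3 : ℝ) * k / log k) ^ 2 := by
    calc (c' * k / log k) * (c / 2 * k / log k)
        ≤ (X.card : ℝ) * (c / 2 * k / log k) :=
          mul_le_mul_of_nonneg_right hXcard (by positivity)
      _ ≤ _ := h2
      _ ≤ _ := mul_le_mul_of_nonneg_left h3 hε.le
  have h5 : c * c' / (4 * (C3 : ℝ) ^ 2) * ((C3 : ℝ) * k / log k) ^ 2
      = c * c' / 4 * (k / log k) ^ 2 := by field_simp
  have h6 : (c' * k / log k) * (c / 2 * k / log k) = c * c' / 2 * (k / log k) ^ 2 := by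
    field_simp
  rw [h5, h6] at h4
  have h7 : 0 < c * c' * (k / log k) ^ 2 := by positivity
  nlinarith

theorem an : ANStmt := by
  intro a b u v M hab ha hb hM h2M hu hv huv hpos N
  -- windows
  obtain ⟨x0, x1, y0, y1, hx0, hx01, hy0, hy01, hp, hdis⟩ : ∃ x0 x1 y0 y1 : ℝ, 1 ≤ x0 ∧ x0 < x1 ∧
      1 ≤ y0 ∧ y0 < y1 ∧ (∀ x ∈ Set.Icc x0 x1, ∀ y ∈ Set.Icc y0 y1, 0 < (a : ℝ) * x + b * y) ∧
      (x1 ≤ y0 ∨ y1 ≤ x0) := by
    rcases hpos with h | h
    · have ha1 : (1 : ℝ) ≤ a := by exact_mod_cast h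
      have hb0 := abs_nonneg (b : ℝ)
      refine ⟨2 * |(b : ℝ)| + 3, 2 * |(b : ℝ)| + 4, 1, 2, by linarith, by linarith, le_rfl,
        by norm_num, ?_, Or.inr (by linarith)⟩
      intro x hx y hy
      have h1 : (2 * |(b : ℝ)| + 3) ≤ a * x := by nlinarith [hx.1]
      have h2 : -(|(b : ℝ)| * 2) ≤ b * y := by
        have h3 : |(b : ℝ) * y| ≤ |(b : ℝ)| * 2 := by
          rw [abs_mul]
          apply mul_le_mul_of_nonneg_left _ hb0
          rw [abs_of_nonneg (by linarith [hy.1])]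
          exact hy.2
        exact (abs_le.1 h3).1.trans' (by linarith)
      linarith
    · have hb1 : (1 : ℝ) ≤ b := by exact_mod_cast h
      have ha0 := abs_nonneg (a : ℝ)
      refine ⟨1, 2, 2 * |(a : ℝ)| + 3, 2 * |(a : ℝ)| + 4, le_rfl, by norm_num, by linarith,
        by linarith, ?_, Or.inl (by linarith)⟩
      intro x hx y hy
      have h1 : (2 * |(a : ℝ)| + 3) ≤ b * y := by nlinarith [hy.1]
      have h2 : -(|(a : ℝ)| * 2) ≤ a * x := by
        have h3 : |(a : ℝ) * x| ≤ |(a : ℝ)| * 2 := by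
          rw [abs_mul]
          apply mul_le_mul_of_nonneg_left _ ha0
          rw [abs_of_nonneg (by linarith [hx.1])]
          exact hx.2
        exact (abs_le.1 h3).1.trans' (by linarith)
      linarith
  obtain ⟨k, hk, x, hx, y, hy, hxu, hyv, l, hl, hl2⟩ := an_core a b u v M x0 x1 y0 y1 hab ha hb hM
    h2M hu hv huv (by linarith) hx01 (by linarith) hy01 hp (N + 1)
  obtain ⟨hxp, hx1, hx2⟩ := mem_PW' hx
  obtain ⟨hyp, hy1, hy2⟩ := mem_PW' hy
  have hkN : (N : ℝ) + 1 ≤ k := by exact_mod_cast hk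
  have hk0 : (0 : ℝ) < k := by
    have : (0 : ℝ) ≤ N := Nat.cast_nonneg _
    linarith
  refine ⟨x, y, l, hxp, hyp, hl, ?_, ?_, ?_, hxu, hyv, hl2.symm⟩
  · have : (N : ℝ) < x := by nlinarith
    exact_mod_cast this
  · have : (N : ℝ) < y := by nlinarith
    exact_mod_cast this
  · rintro rfl
    rcases hdis with h | h
    · have : x1 * k ≤ y0 * k := mul_le_mul_of_nonneg_right h hk0.le
      linarith
    · have : y1 * k ≤ x0 * k := mul_le_mul_of_nonneg_right h hk0.le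
      linarith

end Pool.Agent.NJ
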