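import Pool.Agent.Helper75_NJ.Dla

set_option autoImplicit false

/-!
# Squad NJ, module DKA: core of the descent for the recipe K
-/

namespace Pool.Agent.NJ.H32

open Pool.Agent.NJ Pool.Agent.NJ.H75

lemma listK2 {d a b P ε : ℤ} (ha : a % 8 = 5) (hb : b % 8 = 5) (hP : P % 8 = 1)
    (hε : ε = 1 ∨ ε = -1)
    (hd : d = ε ∨ d = ε * 2 ∨ d = ε * a ∨ d = ε * (2 * a) ∨ d = ε * b ∨ d = ε * (2 * b) ∨
      d = ε * P ∨ d = ε * (2 * P))
    (tw : d % 8 = 1 ∨ d % 16 = 14) :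
    d = 1 ∨ d = -1 * 2 ∨ d = P ∨ d = -1 * (2 * P) := by
  rcases hε with rfl | rfl <;> rcases hd with hd | hd | hd | hd | hd | hd | hd | hd <;> omega

lemma listK1 {d a b P ε : ℤ} (ha : a % 8 = 5) (hb : b % 8 = 5) (hP : P % 8 = 1)
    (ha0 : 0 < a) (hb0 : 0 < b) (hP0 : 0 < P) (hd0 : 0 < d)
    (hε : ε = 1 ∨ ε = -1)
    (hd : d = ε ∨ d = ε * 2 ∨ d = ε * a ∨ d = ε * (2 * a) ∨ d = ε * b ∨ d = ε * (2 * b) ∨
      d = ε * P ∨ d = ε * (2 * P))
    (tw : d % 8 = 1 ∨ d % 8 = 3 ∨ d % 16 = 2 ∨ d % 16 = 6) :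
    d = 1 ∨ d = 2 ∨ d = P ∨ d = 2 * P := by
  rcases hε with rfl | rfl <;> rcases hd with hd | hd | hd | hd | hd | hd | hd | hd <;> omega

/-- core of the descent for `K` -/
theorem dka (hSUP : SUPStmt) (hMUL : MULStmt) (hST0 : ST0Stmt) (hST3 : ST3Stmt)
    (hST4 : ST4Stmt) (hTW1 : TW1Stmt) (hREA : REAStmt) (hSQF : SQFStmt) : DKAStmt := by
  intro k p1 p2 p3 hR d1 d2 hC hn1 hn2
  obtain ⟨r, s, w, A, B, hP⟩ := hC
  obtain ⟨ksq, q1, q2, q3, m1, m3, h2, hne, big1, big3, hleg, hlegk⟩ := hR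
  have F1 : Fact p1.Prime := ⟨q1⟩
  have F2 : Fact p2.Prime := ⟨q2⟩
  have F3 : Fact p3.Prime := ⟨q3⟩
  have t1 : p1 ≠ 2 := by omega
  have t3 : p3 ≠ 2 := by omega
  have k0 : k ≠ 0 := ksq.ne_zero
  have m2 : (p2 : ℤ) % 8 = 5 := by
    have e : (p2 : ℤ) = p1 + 8 * (k * p3) := by rw [h2]; ring
    omega
  have m2' : p2 % 8 = 5 := by omega
  have t2 : p2 ≠ 2 := by omega
  have prI1 : Prime (p1 : ℤ) := Nat.prime_iff_prime_int.mp q1
  have prI2 : Prime (p2 : ℤ) := Nat.prime_iff_prime_int.mp q2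
  have prI3 : Prime (p3 : ℤ) := Nat.prime_iff_prime_int.mp q3
  have z1 : (0 : ℤ) < p1 := by exact_mod_cast q1.pos
  have z2 : (0 : ℤ) < p2 := by exact_mod_cast q2.pos
  have z3 : (0 : ℤ) < p3 := by exact_mod_cast q3.pos
  have dv : ∀ {a b : ℕ}, a.Prime → b.Prime → ((a : ℤ) ∣ (b : ℤ)) → a = b := by
    intro a b ha hb hab
    exact (Nat.prime_dvd_prime_iff_eq ha hb).mp (Int.natCast_dvd_natCast.mp hab)
  have dv2 : ∀ {a : ℕ}, a.Prime → ((a : ℤ) ∣ 2) → a = 2 := by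
    intro a ha hab
    exact dv ha Nat.prime_two (by exact_mod_cast hab)
  have ndm : ∀ {p a b : ℤ}, Prime p → ¬ p ∣ a → ¬ p ∣ b → ¬ p ∣ a * b := by
    intro p a b hp ha hb h
    rcases hp.dvd_or_dvd h with h | h
    · exact ha h
    · exact hb h
  have ndk : ∀ {a : ℕ}, (a : ℤ) ∣ k → a ≤ k.natAbs := by
    intro a h
    exact Nat.le_of_dvd (Int.natAbs_pos.2 k0) (Int.natCast_dvd.1 h)
  have a13 : ¬ (p1 : ℤ) ∣ p3 := fun h => hne (dv q1 q3 h)
  have a31 : ¬ (p3 : ℤ) ∣ p1 := fun h => hne (dv q3 q1 h).symm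
  have a1t : ¬ (p1 : ℤ) ∣ 2 := fun h => t1 (dv2 q1 h)
  have a3t : ¬ (p3 : ℤ) ∣ 2 := fun h => t3 (dv2 q3 h)
  have a2t : ¬ (p2 : ℤ) ∣ 2 := fun h => t2 (dv2 q2 h)
  have a1k : ¬ (p1 : ℤ) ∣ k := fun h => by have := ndk h; omega
  have n32 : p3 ≠ p2 := by
    intro h
    apply a31
    have e : (p1 : ℤ) = p3 * (1 - 8 * k) := by
      have : (p3 : ℤ) = p2 := by exact_mod_cast h
      rw [← this] at h2
      linear_combination -h2
    exact ⟨_, e⟩
  have n12 : p1 ≠ p2 := by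
    intro h
    have e : (8 : ℤ) * k * p3 = 0 := by
      have : (p1 : ℤ) = p2 := by exact_mod_cast h
      rw [← this] at h2
      linear_combination -h2
    rcases mul_eq_zero.1 e with e | e
    · rcases mul_eq_zero.1 e with e | e
      · exact absurd e (by norm_num)
      · exact k0 e
    · exact z3.ne' e
  have a12 : ¬ (p1 : ℤ) ∣ p2 := fun h => n12 (dv q1 q2 h)
  have a21 : ¬ (p2 : ℤ) ∣ p1 := fun h => n12 (dv q2 q1 h).symm
  have a23 : ¬ (p2 : ℤ) ∣ p3 := fun h => n32 (dv q2 q3 h).symm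
  have a32 : ¬ (p3 : ℤ) ∣ p2 := fun h => n32 (dv q3 q2 h)
  have hprod : ∀ {p : ℕ}, p.Prime → (p : ℤ) ∣ 2 * (p1 : ℤ) ^ 2 * p2 * p3 →
      p = 2 ∨ p = p1 ∨ p = p2 ∨ p = p3 := by
    intro p hp h
    have hpI : Prime (p : ℤ) := Nat.prime_iff_prime_int.mp hp
    rcases hpI.dvd_or_dvd h with h | h
    · rcases hpI.dvd_or_dvd h with h | h
      · rcases hpI.dvd_or_dvd h with h | h
        · exact Or.inl (dv2 hp h)
        · exact Or.inr (Or.inl (dv hp q1 (hpI.dvd_of_dvd_pow h)))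
      · exact Or.inr (Or.inr (Or.inl (dv hp q2 h)))
    · exact Or.inr (Or.inr (Or.inr (dv hp q3 h)))
  have hprod3 : ∀ {p : ℕ}, p.Prime → (p : ℤ) ∣ -16 * k * (p1 : ℤ) * p2 * p3 ^ 2 →
      p = 2 ∨ p = p1 ∨ p = p2 ∨ p = p3 ∨ (p : ℤ) ∣ k := by
    intro p hp h
    have hpI : Prime (p : ℤ) := Nat.prime_iff_prime_int.mp hp
    rcases hpI.dvd_or_dvd h with h | h
    · rcases hpI.dvd_or_dvd h with h | h
      · rcases hpI.dvd_or_dvd h with h | h
        · rcases hpI.dvd_or_dvd h with h | h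
          · left
            apply dv2 hp
            have : (-16 : ℤ) = -(2 ^ 4) := by norm_num
            rw [this, dvd_neg] at h
            exact hpI.dvd_of_dvd_pow h
          · exact Or.inr (Or.inr (Or.inr (Or.inr h)))
        · exact Or.inr (Or.inl (dv hp q1 h))
      · exact Or.inr (Or.inr (Or.inl (dv hp q2 h)))
    · exact Or.inr (Or.inr (Or.inr (Or.inl (dv hp q3 (hpI.dvd_of_dvd_pow h)))))
  have hdiff : 2 * (p1 : ℤ) ^ 2 * p2 * p3 - -16 * k * (p1 : ℤ) * p2 * p3 ^ 2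
      = (p2 : ℤ) ^ 2 * (2 * p1 * p3) := by
    have e : (p2 : ℤ) ^ 2 * (2 * p1 * p3) = (p2 : ℤ) * (p1 + 8 * k * p3) * (2 * p1 * p3) := by
      rw [← h2]; ring
    rw [e]; ring
  have hprodd : ∀ {p : ℕ}, p.Prime →
      (p : ℤ) ∣ 2 * (p1 : ℤ) ^ 2 * p2 * p3 - -16 * k * (p1 : ℤ) * p2 * p3 ^ 2 →
      p = 2 ∨ p = p1 ∨ p = p2 ∨ p = p3 := by
    intro p hp h
    rw [hdiff] at h
    have hpI : Prime (p : ℤ) := Nat.prime_iff_prime_int.mp hp
    rcases hpI.dvd_or_dvd h with h | h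
    · exact Or.inr (Or.inr (Or.inl (dv hp q2 (hpI.dvd_of_dvd_pow h))))
    · rcases hpI.dvd_or_dvd h with h | h
      · rcases hpI.dvd_or_dvd h with h | h
        · exact Or.inl (dv2 hp h)
        · exact Or.inr (Or.inl (dv hp q1 h))
      · exact Or.inr (Or.inr (Or.inr (dv hp q3 h)))
  -- residues
  have c1 : (p1 : ℤ) % 8 = 5 := by omega
  have c3 : (p3 : ℤ) % 8 = 5 := by omega
  have c23 : ((p2 : ℤ) * p3) % 8 = 1 := by rw [Int.mul_emod, m2, c3]; norm_num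
  have hA : 2 * (p1 : ℤ) ^ 2 * p2 * p3 % 16 = 2 := by
    have : ((p1 : ℤ) ^ 2 * p2 * p3) % 8 = 1 := by
      have e : (p1 : ℤ) ^ 2 * p2 * p3 = (p1 * p1) * ((p2 : ℤ) * p3) := by ring
      have e1 : ((p1 : ℤ) * p1) % 8 = 1 := by rw [Int.mul_emod, c1]; norm_num
      rw [e, Int.mul_emod, e1, c23]; norm_num
    have e : 2 * (p1 : ℤ) ^ 2 * p2 * p3 = 2 * ((p1 : ℤ) ^ 2 * p2 * p3) := by ring
    rw [e]; omega
  have hB : (16 : ℤ) ∣ -16 * k * (p1 : ℤ) * p2 * p3 ^ 2 := ⟨-k * (p1 : ℤ) * p2 * p3 ^ 2, by ring⟩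
  have tw := hTW1 _ _ _ _ _ _ _ _ _ hP hA hB
  have l1m : legendreSym p1 (-1) = 1 := leg_neg_one_of_five m1
  have l1t : legendreSym p1 2 = -1 := leg_two (Or.inr m1)
  have l3m : legendreSym p3 (-1) = 1 := leg_neg_one_of_five m3
  have l3t : legendreSym p3 2 = -1 := leg_two (Or.inr m3)
  have l2t : legendreSym p2 2 = -1 := leg_two (Or.inr m2')
  have l1k : legendreSym p1 k = -1 := hlegk
  have l1P : legendreSym p1 (2 * ((p2 : ℤ) * p3)) = -1 := by
    have e : legendreSym p1 (2 * ((p2 : ℤ) * p3)) = legendreSym p1 (k * ((4 * p3) * (4 * p3))) := by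
      apply leg_congr
      refine ⟨2 * p3, ?_⟩
      rw [h2]; ring
    rw [e, legendreSym.mul, legendreSym.mul, leg_sq, l1k]
    · norm_num
    · have : (4 : ℤ) * p3 = 2 * (2 * p3) := by ring
      rw [this]
      exact ndm prI1 a1t (ndm prI1 a1t a13)
  -- ST0 at p1
  have st0 := hST0 _ _ _ _ _ _ _ _ _ hP p1 t1 ⟨2 * (p1 : ℤ) * p2 * p3, by ring⟩
    ⟨-16 * k * (p2 : ℤ) * p3 ^ 2, by ring⟩ (Or.inr (by
      intro h
      obtain ⟨c, hc⟩ := h
      have h1 : (p1 : ℤ) ∣ (2 * (2 * (2 * 2))) * (k * (p2 * (p3 * p3))) := by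
        refine ⟨-c, ?_⟩
        have h0 : (p1 : ℤ) ≠ 0 := prI1.ne_zero
        apply mul_left_cancel₀ h0
        linear_combination -hc
      exact ndm prI1 (ndm prI1 a1t (ndm prI1 a1t (ndm prI1 a1t a1t)))
        (ndm prI1 a1k (ndm prI1 a12 (ndm prI1 a13 a13))) h1)) hn1 hn2
  -- d2
  have sup2 : ∀ p : ℕ, p.Prime → (p : ℤ) ∣ d2 → p = 2 ∨ p = p2 ∨ p = p3 := by
    intro p hp h
    have h' : p = 2 ∨ p = p1 ∨ p = p2 ∨ p = p3 := by
      rcases (hSUP _ _ _ _ _ _ _ _ _ hP p hp).2.1 h with h' | h'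
      · exact hprod hp h'
      · exact hprodd hp h'
    rcases h' with h' | h' | h' | h'
    · exact Or.inl h'
    · subst h'; exact absurd h hn2
    · exact Or.inr (Or.inl h')
    · exact Or.inr (Or.inr h')
  have hd2 : d2 = 1 := by
    obtain ⟨ε, hε, hd⟩ := (hSQF d2 p2 p3 hP.sq2 q2 q3 t2 t3 n32.symm).2 sup2
    have hl : d2 = 1 ∨ d2 = -1 * 2 ∨ d2 = (p2 : ℤ) * p3 ∨ d2 = -1 * (2 * ((p2 : ℤ) * p3)) := by
      apply listK2 m2 c3 c23 hε hd
      rcases tw with tw | tw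
      · exact Or.inl tw.1
      · exact Or.inr tw
    rcases hl with h | h | h | h
    · exact h
    · exfalso
      rw [h, legendreSym.mul, l1m, l1t] at st0
      exact absurd st0.2 (by norm_num)
    · exfalso
      have h3 := hST3 _ _ _ _ _ _ _ _ _ hP p3 (2 * (p1 : ℤ) ^ 2 * p2) p2 t3 (by ring) (by
        have e : 2 * (p1 : ℤ) ^ 2 * p2 = 2 * ((p1 * p1) * p2) := by ring
        rw [e]
        exact ndm prI3 a3t (ndm prI3 (ndm prI3 a31 a31) a32))
        ⟨-16 * k * (p1 : ℤ) * p2, by ring⟩ (by rw [h]; ring)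
      have e : (-(2 * (p1 : ℤ) ^ 2 * p2)) = (-1 * 2) * ((p1 * p1) * p2) := by ring
      rw [e, legendreSym.mul, legendreSym.mul, legendreSym.mul, legendreSym.mul, leg_sq a31,
        l3m, l3t] at h3
      have h4 := leg_ne a32
      apply h4
      linarith
    · exfalso
      rw [h, legendreSym.mul, l1m, l1P] at st0
      exact absurd st0.2 (by norm_num)
  -- d1
  have sup1 : ∀ p : ℕ, p.Prime → (p : ℤ) ∣ d1 → p = 2 ∨ p = p2 ∨ p = p3 := by
    intro p hp h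
    by_cases hp2 : p = 2
    · exact Or.inl hp2
    right
    by_contra hcon
    rw [not_or] at hcon
    obtain ⟨np2, np3⟩ := hcon
    have hpI : Prime (p : ℤ) := Nat.prime_iff_prime_int.mp hp
    have np1 : p ≠ p1 := by
      rintro rfl
      exact hn1 h
    have hpk : (p : ℤ) ∣ k := by
      rcases (hSUP _ _ _ _ _ _ _ _ _ hP p hp).1 h with h' | h'
      · rcases hprod hp h' with h' | h' | h' | h'
        · exact absurd h' hp2
        · exact absurd h' np1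
        · exact absurd h' np2
        · exact absurd h' np3
      · rcases hprod3 hp h' with h' | h' | h' | h' | h'
        · exact absurd h' hp2
        · exact absurd h' np1
        · exact absurd h' np2
        · exact absurd h' np3
        · exact h'
    have Fp : Fact p.Prime := ⟨hp⟩
    have b2 : ¬ (p : ℤ) ∣ 2 := fun h => hp2 (dv2 hp h)
    have b1 : ¬ (p : ℤ) ∣ p1 := fun h => np1 (dv hp q1 h)
    have bb2 : ¬ (p : ℤ) ∣ p2 := fun h => np2 (dv hp q2 h)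
    have b3 : ¬ (p : ℤ) ∣ p3 := fun h => np3 (dv hp q3 h)
    have hm := (hMUL _ _ _ _ _ _ _ _ _ hP p hp2 (by
      intro h5
      rcases hprod hp h5 with h6 | h6 | h6 | h6
      · exact hp2 h6
      · exact np1 h6
      · exact np2 h6
      · exact np3 h6) (hpk.trans ⟨-16 * (p1 : ℤ) * p2 * p3 ^ 2, by ring⟩) (by
      rintro ⟨c, hc⟩
      obtain ⟨k', hk'⟩ := hpk
      have h6 : (p : ℤ) ∣ 2 ^ 4 * (k' * (p1 * (p2 * (p3 * p3)))) := by
        refine ⟨-c, ?_⟩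
        apply mul_left_cancel₀ hpI.ne_zero
        rw [hk'] at hc
        linear_combination -hc
      have h7 : ¬ (p : ℤ) ∣ k' := by
        rintro ⟨c', hc'⟩
        have h8 := ksq p ⟨c', by rw [hk', hc']; ring⟩
        exact hpI.not_isUnit h8
      exact ndm hpI (fun h => b2 (hpI.dvd_of_dvd_pow h))
        (ndm hpI h7 (ndm hpI b1 (ndm hpI bb2 (ndm hpI b3 b3)))) h6)).1 h
    have hl := hleg p hp2 hpk
    have e1 : legendreSym p d2 = 1 := by rw [hd2]; simp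
    rw [e1] at hm
    have e2 : legendreSym p (-(2 * (p1 : ℤ) ^ 2 * p2 * p3))
        = legendreSym p ((-2 * p1 * p3) * (p1 * p1)) := by
      apply leg_congr
      obtain ⟨k', hk'⟩ := hpk
      refine ⟨-(2 * (p1 : ℤ) ^ 2 * p3) * (8 * k' * p3), ?_⟩
      have e3 : (p2 : ℤ) = p1 + 8 * (p * k') * p3 := by rw [h2, hk']
      rw [e3]; ring
    rw [e2, legendreSym.mul, hl, legendreSym.mul, leg_sq b1] at hm
    exact absurd hm (by norm_num)
  have hd1 : 0 < d1 := (hREA _ _ _ _ _ _ _ _ _ hP).1 (by positivity) (by rw [hd2]; norm_num)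
  obtain ⟨ε, hε, hd⟩ := (hSQF d1 p2 p3 hP.sq1 q2 q3 t2 t3 n32.symm).2 sup1
  have hl : d1 = 1 ∨ d1 = 2 ∨ d1 = (p2 : ℤ) * p3 ∨ d1 = 2 * ((p2 : ℤ) * p3) := by
    apply listK1 m2 c3 c23 z2 z3 (by positivity) hd1 hε hd
    rcases tw with tw | tw
    · exact tw.2
    · rw [hd2] at tw
      exact absurd tw (by norm_num)
  rcases hl with h | h | h | h
  · exact ⟨h, hd2⟩
  · exfalso
    rw [h, l1t] at st0
    exact absurd st0.1 (by norm_num)
  · exfalso
    have h4 := hST4 _ _ _ _ _ _ _ _ _ hP p2 (2 * (p1 : ℤ) ^ 2 * p3) p3 t2 (by ring) (by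
        have e : 2 * (p1 : ℤ) ^ 2 * p3 = 2 * ((p1 * p1) * p3) := by ring
        rw [e]
        exact ndm prI2 a2t (ndm prI2 (ndm prI2 a21 a21) a23))
      ⟨2 * p1 * p3, by rw [hdiff]⟩ (by rw [h]) (by
        rw [hd2]
        intro hh
        exact prI2.not_isUnit (isUnit_of_dvd_unit hh isUnit_one))
    have e : (2 * (p1 : ℤ) ^ 2 * p3) = 2 * ((p1 * p1) * p3) := by ring
    rw [e, legendreSym.mul, legendreSym.mul, legendreSym.mul, leg_sq a21, l2t] at h4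
    apply leg_ne a23
    linarith
  · exfalso
    rw [h, l1P] at st0
    exact absurd st0.1 (by norm_num)

end Pool.Agent.NJ.H32
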