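import Pool.Agent.Helper32_NJ.Stmts

set_option autoImplicit false

/-!
# Module DKB (squad NJ): descent for the curve of the recipe K
-/

namespace Pool.Agent.NJ.H32

open Pool.Agent.NJ

theorem recK_facts {k : ℤ} {p₁ p₂ p₃ : ℕ} (h : RecK k p₁ p₂ p₃) :
    Prime (p₁ : ℤ) ∧ ¬ (p₁ : ℤ) ∣ 2 ∧ ¬ (p₁ : ℤ) ∣ k ∧ ¬ (p₁ : ℤ) ∣ p₂ ∧ ¬ (p₁ : ℤ) ∣ p₃ := by
  have hp : Prime (p₁ : ℤ) := Nat.prime_iff_prime_int.1 h.pr1
  have h3 : ¬ (p₁ : ℤ) ∣ p₃ := by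
    intro h'
    have h'' : p₁ ∣ p₃ := Int.natCast_dvd_natCast.1 h'
    exact h.ne ((Nat.prime_dvd_prime_iff_eq h.pr1 h.pr3).1 h'')
  have h2 : ¬ (p₁ : ℤ) ∣ 2 := by
    intro h'
    have h'' : p₁ ∣ 2 := by exact_mod_cast h'
    have := (Nat.prime_dvd_prime_iff_eq h.pr1 Nat.prime_two).1 h''
    have := h.m1
    omega
  have hk : ¬ (p₁ : ℤ) ∣ k := by
    intro h'
    have h'' : p₁ ∣ k.natAbs := Int.natCast_dvd.1 h'
    have h4 := Nat.le_of_dvd (Int.natAbs_pos.2 h.sqf.ne_zero) h''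
    have := h.big1
    omega
  refine ⟨hp, h2, hk, ?_, h3⟩
  intro h'
  have e : (2 : ℤ) * (2 * (2 * (k * p₃))) = p₂ - p₁ := by
    have := h.h2
    rw [this]
    ring
  have h5 : (p₁ : ℤ) ∣ 2 * (2 * (2 * (k * p₃))) := by
    rw [e]
    exact dvd_sub h' dvd_rfl
  rcases hp.dvd_or_dvd h5 with h6 | h6
  · exact h2 h6
  · rcases hp.dvd_or_dvd h6 with h7 | h7
    · exact h2 h7
    · rcases hp.dvd_or_dvd h7 with h8 | h8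
      · exact h2 h8
      · rcases hp.dvd_or_dvd h8 with h9 | h9
        · exact hk h9
        · exact h3 h9

/-- DKB. -/
theorem dkb (dka : DKAStmt) (nrm : NRMStmt) (crit : CRITStmt) : DKBStmt := by
  intro k p₁ p₂ p₃ h
  obtain ⟨hp, n2, nk, n22, n3⟩ := recK_facts h
  have z1 : (0 : ℤ) < p₁ := by exact_mod_cast h.pr1.pos
  have z2 : (0 : ℤ) < p₂ := by exact_mod_cast h.pr2.pos
  have z3 : (0 : ℤ) < p₃ := by exact_mod_cast h.pr3.pos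
  have k0 : k ≠ 0 := h.sqf.ne_zero
  have e2p : (0 : ℤ) < 2 * p₁ ^ 2 * p₂ * p₃ := by positivity
  have e30 : (-16 * k * p₁ * p₂ * p₃ ^ 2 : ℤ) ≠ 0 := by
    have h1 := z1.ne'
    have h2 := z2.ne'
    have h3 := z3.ne'
    refine mul_ne_zero (mul_ne_zero (mul_ne_zero (mul_ne_zero (by norm_num) k0) h1) h2)
      (pow_ne_zero 2 h3)
  have hne : (2 * p₁ ^ 2 * p₂ * p₃ : ℤ) ≠ -16 * k * p₁ * p₂ * p₃ ^ 2 := by
    intro he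
    have h5 : (2 * p₁ * p₂ * p₃ : ℤ) * (p₁ + 8 * k * p₃) = 0 := by linear_combination he
    rw [← h.h2] at h5
    have : (0 : ℤ) < 2 * p₁ * p₂ * p₃ * p₂ := by positivity
    omega
  have o1 : (p₁ : ℤ) % 2 = 1 := by have := h.m1; omega
  have o3 : (p₃ : ℤ) % 2 = 1 := by have := h.m3; omega
  have o2 : (p₂ : ℤ) % 2 = 1 := by
    have e : (p₂ : ℤ) = p₁ + 2 * (4 * k * p₃) := by rw [h.h2]; ring
    omega
  have key := crit (2 * p₁ ^ 2 * p₂ * p₃) (-16 * k * p₁ * p₂ * p₃ ^ 2) e2p.ne' e30 hne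
    (Or.inl ⟨?_, ⟨-4 * k * p₁ * p₂ * p₃ ^ 2, by ring⟩⟩) ?_
  · have e : ((2 * (p₁ : ℤ) ^ 2 * p₂ * p₃ : ℤ) : ℚ) = 2 * (p₁ : ℚ) ^ 2 * p₂ * p₃ := by
      push_cast
      ring
    have e' : ((-16 * k * (p₁ : ℤ) * p₂ * p₃ ^ 2 : ℤ) : ℚ)
        = -16 * (k : ℚ) * (p₁ : ℚ) * p₂ * p₃ ^ 2 := by
      push_cast
      ring
    rw [e, e'] at key
    exact key
  · obtain ⟨a, ha⟩ : ∃ a : ℤ, (p₁ : ℤ) ^ 2 * p₂ * p₃ = 2 * a + 1 := by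
      have h4 : Odd ((p₁ : ℤ) ^ 2 * p₂ * p₃) :=
        (((Int.odd_iff.2 o1).pow).mul (Int.odd_iff.2 o2)).mul (Int.odd_iff.2 o3)
      exact h4
    have e : (2 * (p₁ : ℤ) ^ 2 * p₂ * p₃) = 4 * a + 2 := by
      calc (2 * (p₁ : ℤ) ^ 2 * p₂ * p₃) = 2 * ((p₁ : ℤ) ^ 2 * p₂ * p₃) := by ring
        _ = 2 * (2 * a + 1) := by rw [ha]
        _ = 4 * a + 2 := by ring
    rw [e]
    omega
  · refine nrm (2 * p₁ ^ 2 * p₂ * p₃) (-16 * k * p₁ * p₂ * p₃ ^ 2) p₁ h.pr1 hne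
      ⟨2 * p₂ * p₃, by ring⟩ ?_ ⟨-16 * k * p₂ * p₃ ^ 2, by ring⟩ ?_ (dka k p₁ p₂ p₃ h)
    · intro hd
      have hd' : (p₁ : ℤ) ^ 2 * p₁ ∣ (p₁ : ℤ) ^ 2 * (2 * p₂ * p₃) := by
        have e1 : (p₁ : ℤ) ^ 2 * p₁ = (p₁ : ℤ) ^ 3 := by ring
        have e2 : (p₁ : ℤ) ^ 2 * (2 * p₂ * p₃) = 2 * p₁ ^ 2 * p₂ * p₃ := by ring
        rw [e1, e2]
        exact hd
      have h5 := (mul_dvd_mul_iff_left (pow_ne_zero 2 z1.ne')).1 hd'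
      rcases hp.dvd_or_dvd h5 with h6 | h6
      · rcases hp.dvd_or_dvd h6 with h7 | h7
        · exact n2 h7
        · exact n22 h7
      · exact n3 h6
    · intro hd
      have hd' : (p₁ : ℤ) * p₁ ∣ (p₁ : ℤ) * (2 ^ 4 * (-(k * p₂ * p₃ ^ 2))) := by
        have e1 : (p₁ : ℤ) * p₁ = (p₁ : ℤ) ^ 2 := by ring
        have e2 : (p₁ : ℤ) * (2 ^ 4 * (-(k * p₂ * p₃ ^ 2))) = -16 * k * p₁ * p₂ * p₃ ^ 2 := by
          ring
        rw [e1, e2]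
        exact hd
      have h5 := (mul_dvd_mul_iff_left z1.ne').1 hd'
      rcases hp.dvd_or_dvd h5 with h6 | h6
      · exact n2 (hp.dvd_of_dvd_pow h6)
      · rw [dvd_neg] at h6
        rcases hp.dvd_or_dvd h6 with h7 | h7
        · rcases hp.dvd_or_dvd h7 with h8 | h8
          · exact nk h8
          · exact n22 h8
        · exact n3 (hp.dvd_of_dvd_pow h7)

end Pool.Agent.NJ.H32
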