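import Pool.Agent.Helper63_NJ.Dmb

set_option autoImplicit false

/-!
# Module DLB (squad NJ): descent for the curve of the recipe L, first sign
-/

namespace Pool.Agent.NJ.H32

open Pool.Agent.NJ

/-- DLB. -/
theorem dlb (dla : DLAStmt) (nrm : NRMStmt) (crit : CRITStmt) : DLBStmt := by
  intro p₁ p₂ p₃ h
  obtain ⟨hp, n2, n22, n3⟩ := H63.recL_facts h
  have z1 : (0 : ℤ) < p₁ := by exact_mod_cast h.pr1.pos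
  have z2 : (0 : ℤ) < p₂ := by exact_mod_cast h.pr2.pos
  have z3 : (0 : ℤ) < p₃ := by exact_mod_cast h.pr3.pos
  have e2p : (0 : ℤ) < 4 * p₁ ^ 2 * p₂ * p₃ := by positivity
  have e3n : (-2 * p₁ * p₂ * p₃ ^ 2 : ℤ) < 0 := by
    have : (0 : ℤ) < p₁ * p₂ * p₃ ^ 2 := by positivity
    nlinarith
  have hne : (4 * p₁ ^ 2 * p₂ * p₃ : ℤ) ≠ -2 * p₁ * p₂ * p₃ ^ 2 :=
    (by linarith : (-2 * p₁ * p₂ * p₃ ^ 2 : ℤ) < 4 * p₁ ^ 2 * p₂ * p₃).ne'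
  have o1 : (p₁ : ℤ) % 2 = 1 := by have := h.m1; omega
  have o3 : (p₃ : ℤ) % 2 = 1 := by have := h.m3; omega
  have o2 : (p₂ : ℤ) % 2 = 1 := by have := h.h2; omega
  have key := crit (4 * p₁ ^ 2 * p₂ * p₃) (-2 * p₁ * p₂ * p₃ ^ 2) e2p.ne' e3n.ne hne
    (Or.inr ⟨?_, ⟨p₁ ^ 2 * p₂ * p₃, by ring⟩⟩) ?_
  · have e : ((4 * (p₁ : ℤ) ^ 2 * p₂ * p₃ : ℤ) : ℚ) = 4 * (p₁ : ℚ) ^ 2 * p₂ * p₃ := by
      push_cast
      ring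
    have e' : ((-2 * (p₁ : ℤ) * p₂ * p₃ ^ 2 : ℤ) : ℚ) = -2 * (p₁ : ℚ) * p₂ * p₃ ^ 2 := by
      push_cast
      ring
    rw [e, e'] at key
    exact key
  · obtain ⟨a, ha⟩ : ∃ a : ℤ, (p₁ : ℤ) * p₂ * p₃ ^ 2 = 2 * a + 1 := by
      have h4 : Odd ((p₁ : ℤ) * p₂ * p₃ ^ 2) :=
        ((Int.odd_iff.2 o1).mul (Int.odd_iff.2 o2)).mul ((Int.odd_iff.2 o3).pow)
      exact h4
    have e : (-2 * (p₁ : ℤ) * p₂ * p₃ ^ 2) = 4 * (-a - 1) + 2 := by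
      calc (-2 * (p₁ : ℤ) * p₂ * p₃ ^ 2) = -2 * ((p₁ : ℤ) * p₂ * p₃ ^ 2) := by ring
        _ = -2 * (2 * a + 1) := by rw [ha]
        _ = 4 * (-a - 1) + 2 := by ring
    rw [e]
    omega
  · refine nrm (4 * p₁ ^ 2 * p₂ * p₃) (-2 * p₁ * p₂ * p₃ ^ 2) p₁ h.pr1 hne
      ⟨4 * p₂ * p₃, by ring⟩ ?_ ⟨-2 * p₂ * p₃ ^ 2, by ring⟩ ?_ (dla p₁ p₂ p₃ h)
    · intro hd
      have hd' : (p₁ : ℤ) ^ 2 * p₁ ∣ (p₁ : ℤ) ^ 2 * (2 * 2 * p₂ * p₃) := by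
        have e1 : (p₁ : ℤ) ^ 2 * p₁ = (p₁ : ℤ) ^ 3 := by ring
        have e2 : (p₁ : ℤ) ^ 2 * (2 * 2 * p₂ * p₃) = 4 * p₁ ^ 2 * p₂ * p₃ := by ring
        rw [e1, e2]
        exact hd
      have h5 := (mul_dvd_mul_iff_left (pow_ne_zero 2 z1.ne')).1 hd'
      rcases hp.dvd_or_dvd h5 with h6 | h6
      · rcases hp.dvd_or_dvd h6 with h7 | h7
        · rcases hp.dvd_or_dvd h7 with h8 | h8 <;> exact n2 h8
        · exact n22 h7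
      · exact n3 h6
    · intro hd
      have hd' : (p₁ : ℤ) * p₁ ∣ (p₁ : ℤ) * (-(2 * p₂ * p₃ ^ 2)) := by
        have e1 : (p₁ : ℤ) * p₁ = (p₁ : ℤ) ^ 2 := by ring
        have e2 : (p₁ : ℤ) * (-(2 * p₂ * p₃ ^ 2)) = -2 * p₁ * p₂ * p₃ ^ 2 := by ring
        rw [e1, e2]
        exact hd
      have h5 := (mul_dvd_mul_iff_left z1.ne').1 hd'
      rw [dvd_neg] at h5
      rcases hp.dvd_or_dvd h5 with h6 | h6
      · rcases hp.dvd_or_dvd h6 with h7 | h7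
        · exact n2 h7
        · exact n22 h7
      · exact n3 (hp.dvd_of_dvd_pow h6)

end Pool.Agent.NJ.H32
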