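import Pool.Agent.Helper75_NJ.Dla

set_option autoImplicit false

/-!
# Squad NJ, module DRA: core of the descent for the recipe R
-/

namespace Pool.Agent.NJ.H32

open Pool.Agent.NJ Pool.Agent.NJ.H75

lemma listR2 {d b ε : ℤ} (hb : b % 8 = 5) (hε : ε = 1 ∨ ε = -1)
    (hd : d = ε ∨ d = ε * 2 ∨ d = ε * b ∨ d = ε * (2 * b))
    (tw : d % 8 = 1 ∨ d % 16 = 14) : d = 1 ∨ d = -1 * 2 := by
  rcases hε with rfl | rfl <;> rcases hd with hd | hd | hd | hd <;> omega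

lemma listR1 {d b ε : ℤ} (hb : b % 8 = 5) (hb0 : 0 < b) (hd0 : 0 < d) (hε : ε = 1 ∨ ε = -1)
    (hd : d = ε ∨ d = ε * 2 ∨ d = ε * b ∨ d = ε * (2 * b))
    (tw : d % 8 = 1 ∨ d % 8 = 3 ∨ d % 16 = 2 ∨ d % 16 = 6) : d = 1 ∨ d = 2 := by
  rcases hε with rfl | rfl <;> rcases hd with hd | hd | hd | hd <;> omega

/-- core of the descent for `R` -/
theorem dra (hSUP : SUPStmt) (hMUL : MULStmt) (hST0 : ST0Stmt) (hST2 : ST2Stmt)
    (hTW1 : TW1Stmt) (hREA : REAStmt) (hSQF : SQFStmt) : DRAStmt := by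
  intro k p1 p2 p3 hR d1 d2 hC hn1 hn2
  obtain ⟨r, s, w, A, B, hP⟩ := hC
  obtain ⟨ksq, q1, q2, q3, m1, m3, h2, hne, big1, big3, hleg⟩ := hR
  have : Fact p1.Prime := ⟨q1⟩
  have : Fact p2.Prime := ⟨q2⟩
  have : Fact p3.Prime := ⟨q3⟩
  have t1 : p1 ≠ 2 := by omega
  have t3 : p3 ≠ 2 := by omega
  have k0 : k ≠ 0 := ksq.ne_zero
  have prI1 : Prime (p1 : ℤ) := Nat.prime_iff_prime_int.mp q1
  have prI3 : Prime (p3 : ℤ) := Nat.prime_iff_prime_int.mp q3
  have dv : ∀ {a b : ℕ}, a.Prime → b.Prime → ((a : ℤ) ∣ (b : ℤ)) → a = b := by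
    intro a b ha hb hab
    exact (Nat.prime_dvd_prime_iff_eq ha hb).mp (Int.natCast_dvd_natCast.mp hab)
  have dv2 : ∀ {a : ℕ}, a.Prime → ((a : ℤ) ∣ 2) → a = 2 := by
    intro a ha hab
    exact dv ha Nat.prime_two (by exact_mod_cast hab)
  have ndm : ∀ {p a b : ℤ}, Prime p → ¬ p ∣ a → ¬ p ∣ b → ¬ p ∣ a * b := by
    intro p a b hp ha hb h
    rcases hp.dvd_or_dvd h with h | h
    · exact ha h
    · exact hb h
  have ndk : ∀ {a : ℕ}, (a : ℤ) ∣ k → a ≤ k.natAbs := by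
    intro a h
    exact Nat.le_of_dvd (Int.natAbs_pos.2 k0) (Int.natCast_dvd.1 h)
  have a13 : ¬ (p1 : ℤ) ∣ p3 := fun h => hne (dv q1 q3 h)
  have a31 : ¬ (p3 : ℤ) ∣ p1 := fun h => hne (dv q3 q1 h).symm
  have a1t : ¬ (p1 : ℤ) ∣ 2 := fun h => t1 (dv2 q1 h)
  have a3t : ¬ (p3 : ℤ) ∣ 2 := fun h => t3 (dv2 q3 h)
  have a1k : ¬ (p1 : ℤ) ∣ k := fun h => by have := ndk h; omega
  have a3k : ¬ (p3 : ℤ) ∣ k := fun h => by have := ndk h; omega
  have hprod : ∀ {p : ℕ}, p.Prime → (p : ℤ) ∣ 2 * (p1 : ℤ) * p3 → p = 2 ∨ p = p1 ∨ p = p3 := by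
    intro p hp h
    have hpI : Prime (p : ℤ) := Nat.prime_iff_prime_int.mp hp
    rcases hpI.dvd_or_dvd h with h | h
    · rcases hpI.dvd_or_dvd h with h | h
      · exact Or.inl (dv2 hp h)
      · exact Or.inr (Or.inl (dv hp q1 h))
    · exact Or.inr (Or.inr (dv hp q3 h))
  have hprod3 : ∀ {p : ℕ}, p.Prime → (p : ℤ) ∣ 16 * k * (p3 : ℤ) ^ 2 →
      p = 2 ∨ p = p3 ∨ (p : ℤ) ∣ k := by
    intro p hp h
    have hpI : Prime (p : ℤ) := Nat.prime_iff_prime_int.mp hp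
    rcases hpI.dvd_or_dvd h with h | h
    · rcases hpI.dvd_or_dvd h with h | h
      · left
        apply dv2 hp
        have : (16 : ℤ) = 2 ^ 4 := by norm_num
        rw [this] at h
        exact hpI.dvd_of_dvd_pow h
      · exact Or.inr (Or.inr h)
    · exact Or.inr (Or.inl (dv hp q3 (hpI.dvd_of_dvd_pow h)))
  have hprodd : ∀ {p : ℕ}, p.Prime →
      (p : ℤ) ∣ 2 * (p1 : ℤ) * p3 - 16 * k * (p3 : ℤ) ^ 2 → p = 2 ∨ p = p2 ∨ p = p3 := by
    intro p hp h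
    have hpI : Prime (p : ℤ) := Nat.prime_iff_prime_int.mp hp
    have h' : (p : ℤ) ∣ 2 * p2 * p3 := by
      rcases h2 with h2 | h2
      · have e : 2 * (p2 : ℤ) * p3 = -(2 * (p1 : ℤ) * p3 - 16 * k * (p3 : ℤ) ^ 2) := by
          rw [h2]; ring
        rw [e, dvd_neg]; exact h
      · have e : 2 * (p2 : ℤ) * p3 = 2 * (p1 : ℤ) * p3 - 16 * k * (p3 : ℤ) ^ 2 := by
          rw [h2]; ring
        rw [e]; exact h
    rcases hpI.dvd_or_dvd h' with h | h
    · rcases hpI.dvd_or_dvd h with h | h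
      · exact Or.inl (dv2 hp h)
      · exact Or.inr (Or.inl (dv hp q2 h))
    · exact Or.inr (Or.inr (dv hp q3 h))
  -- residues
  have c1 : (p1 : ℤ) % 8 = 5 := by omega
  have c3 : (p3 : ℤ) % 8 = 5 := by omega
  have c13 : ((p1 : ℤ) * p3) % 8 = 1 := by rw [Int.mul_emod, c1, c3]; norm_num
  have hA : 2 * (p1 : ℤ) * p3 % 16 = 2 := by
    have e : 2 * (p1 : ℤ) * p3 = 2 * ((p1 : ℤ) * p3) := by ring
    rw [e]; omega
  have hB : (16 : ℤ) ∣ 16 * k * (p3 : ℤ) ^ 2 := ⟨k * (p3 : ℤ) ^ 2, by ring⟩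
  have tw := hTW1 _ _ _ _ _ _ _ _ _ hP hA hB
  have l3m : legendreSym p3 (-1) = 1 := leg_neg_one_of_five m3
  have l3t : legendreSym p3 2 = -1 := leg_two (Or.inr m3)
  -- p3^2 does not divide e2
  have e2p3 : ¬ (p3 : ℤ) ^ 2 ∣ 2 * (p1 : ℤ) * p3 := by
    rintro ⟨c, hc⟩
    have h1 : (p3 : ℤ) ∣ 2 * p1 := by
      refine ⟨c, ?_⟩
      apply mul_left_cancel₀ prI3.ne_zero
      linear_combination hc
    exact ndm prI3 a3t a31 h1
  -- d2
  have sup2 : ∀ p : ℕ, p.Prime → (p : ℤ) ∣ d2 → p = 2 ∨ p = p3 := by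
    intro p hp h
    rcases (hSUP _ _ _ _ _ _ _ _ _ hP p hp).2.1 h with h' | h'
    · rcases hprod hp h' with h' | h' | h'
      · exact Or.inl h'
      · subst h'; exact absurd h hn1
      · exact Or.inr h'
    · rcases hprodd hp h' with h' | h' | h'
      · exact Or.inl h'
      · subst h'; exact absurd h hn2
      · exact Or.inr h'
  have hd2 : d2 = 1 := by
    obtain ⟨ε, hε, hd⟩ := (hSQF d2 p3 p1 hP.sq2 q3 q1 t3 t1 (Ne.symm hne)).1 sup2
    have hl : d2 = 1 ∨ d2 = -1 * 2 := by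
      apply listR2 c3 hε hd
      rcases tw with tw | tw
      · exact Or.inl tw.1
      · exact Or.inr tw
    rcases hl with h | h
    · exact h
    · exfalso
      have h3 := hST2 _ _ _ _ _ _ _ _ _ hP p3 t3 ⟨2 * (p1 : ℤ), by ring⟩ e2p3
        ⟨16 * k, by ring⟩ (by
          rw [h]
          have hm : ¬ (p3 : ℤ) ∣ -1 := by
            intro hh
            exact prI3.not_isUnit (isUnit_of_dvd_unit hh (by norm_num))
          exact ndm prI3 hm a3t)
      rw [h, legendreSym.mul, l3m, l3t] at h3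
      exact absurd h3 (by norm_num)
  -- d1
  have sup1 : ∀ p : ℕ, p.Prime → (p : ℤ) ∣ d1 → p = 2 ∨ p = p3 := by
    intro p hp h
    by_cases hp2 : p = 2
    · exact Or.inl hp2
    right
    by_contra hp3
    have hpI : Prime (p : ℤ) := Nat.prime_iff_prime_int.mp hp
    have hnp1 : p ≠ p1 := by
      rintro rfl
      have h1 := (hSUP _ _ _ _ _ _ _ _ _ hP p hp).2.2 ⟨2 * (p3 : ℤ), by ring⟩ (by
        intro h5
        rcases hprod3 hp h5 with h6 | h6 | h6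
        · exact t1 h6
        · exact hp3 h6
        · exact a1k h6)
      exact hn1 (h1.1 h)
    have hpk : (p : ℤ) ∣ k := by
      rcases (hSUP _ _ _ _ _ _ _ _ _ hP p hp).1 h with h' | h'
      · rcases hprod hp h' with h' | h' | h'
        · exact absurd h' hp2
        · exact absurd h' hnp1
        · exact absurd h' hp3
      · rcases hprod3 hp h' with h' | h' | h'
        · exact absurd h' hp2
        · exact absurd h' hp3
        · exact h'
    have : Fact p.Prime := ⟨hp⟩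
    have b2 : ¬ (p : ℤ) ∣ 2 := fun h => hp2 (dv2 hp h)
    have b3 : ¬ (p : ℤ) ∣ p3 := fun h => hp3 (dv hp q3 h)
    have hm := (hMUL _ _ _ _ _ _ _ _ _ hP p hp2 (by
      intro h5
      rcases hprod hp h5 with h6 | h6 | h6
      · exact hp2 h6
      · exact hnp1 h6
      · exact hp3 h6) (hpk.trans ⟨16 * (p3 : ℤ) ^ 2, by ring⟩) (by
      rintro ⟨c, hc⟩
      obtain ⟨k', hk'⟩ := hpk
      have h6 : (p : ℤ) ∣ 2 ^ 4 * k' * (p3 : ℤ) ^ 2 := by
        refine ⟨c, ?_⟩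
        apply mul_left_cancel₀ hpI.ne_zero
        rw [hk'] at hc
        linear_combination hc
      have h7 : ¬ (p : ℤ) ∣ k' := by
        rintro ⟨c', hc'⟩
        have h8 := ksq p ⟨c', by rw [hk', hc']; ring⟩
        exact hpI.not_isUnit h8
      exact ndm hpI (ndm hpI (fun h => b2 (hpI.dvd_of_dvd_pow h)) h7)
        (fun h => b3 (hpI.dvd_of_dvd_pow h)) h6)).1 h
    have hl := hleg p hp2 hpk
    have e1 : legendreSym p d2 = 1 := by rw [hd2]; simp
    rw [e1] at hm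
    have e2 : (-(2 * (p1 : ℤ) * p3)) = -2 * p1 * p3 := by ring
    rw [e2, hl] at hm
    exact absurd hm (by norm_num)
  have hd1 : 0 < d1 := (hREA _ _ _ _ _ _ _ _ _ hP).1 (by
    have z1 : (0 : ℤ) < p1 := by exact_mod_cast q1.pos
    have z3 : (0 : ℤ) < p3 := by exact_mod_cast q3.pos
    positivity) (by rw [hd2]; norm_num)
  obtain ⟨ε, hε, hd⟩ := (hSQF d1 p3 p1 hP.sq1 q3 q1 t3 t1 (Ne.symm hne)).1 sup1
  have hl : d1 = 1 ∨ d1 = 2 := by
    apply listR1 c3 (by exact_mod_cast q3.pos) hd1 hε hd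
    rcases tw with tw | tw
    · exact tw.2
    · rw [hd2] at tw
      exact absurd tw (by norm_num)
  rcases hl with h | h
  · exact ⟨h, hd2⟩
  · exfalso
    have h3 := hST0 _ _ _ _ _ _ _ _ _ hP p3 t3 ⟨2 * (p1 : ℤ), by ring⟩
      ⟨16 * k * p3, by ring⟩ (Or.inl e2p3) (by rw [h]; exact a3t) (by
        rw [hd2]
        intro hh
        exact prI3.not_isUnit (isUnit_of_dvd_unit hh isUnit_one))
    rw [h, l3t] at h3
    exact absurd h3.1 (by norm_num)

end Pool.Agent.NJ.H32
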