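import Pool.Agent.Helper32_NJ.Stmts

set_option autoImplicit false

/-!
# Module HLV (squad NJ): halving
-/

namespace Pool.Agent.NJ.H32

open Pool.Agent.NJ

theorem hlv : HLVStmt := by
  intro e₂ e₃ r s t h2 h3 hne hs ht
  have a1 : (r - s) * (r + s) = e₂ := by linear_combination hs
  have a2 : (r - t) * (r + t) = e₃ := by linear_combination ht
  have a3 : (s - t) * (s + t) = e₃ - e₂ := by linear_combination ht - hs
  have b1 : r + s ≠ 0 := by
    intro h
    rw [h, mul_zero] at a1
    exact h2 a1.symm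
  have b2 : r + t ≠ 0 := by
    intro h
    rw [h, mul_zero] at a2
    exact h3 a2.symm
  have b3 : s + t ≠ 0 := by
    intro h
    rw [h, mul_zero] at a3
    exact hne (by linarith)
  refine ⟨(r + s) * (r + t), (r + s) * (r + t) * (s + t), mul_ne_zero (mul_ne_zero b1 b2) b3, ?_, ?_⟩
  · rw [← a1, ← a2]
    ring
  · rw [← a1, ← a2]
    ring

end Pool.Agent.NJ.H32
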