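import Pool.Agent.Helper93_NJ.NRM

/-!
# Normalisation of the classes by a translate, recipe R
-/

set_option autoImplicit false

namespace Pool.Agent.NJ.H32

open Pool.Agent.NJ Pool.Agent.NJ.H93

/-- NRR. -/
theorem nrr (hT : TRNStmt) : NRRStmt := by
  intro e₂ e₃ p q hp hq hpq he3 hne hp2 hp2' hp3 hq23 hq23' hq2 hyp d₁ d₂ hcl
  have Fp : Fact p.Prime := ⟨hp⟩
  have Fq : Fact q.Prime := ⟨hq⟩
  have he2 : e₂ ≠ 0 := fun h0 => hp2' (h0 ▸ dvd_zero _)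
  have hd0 : e₂ - e₃ ≠ 0 := sub_ne_zero.2 hne
  have hd0' : e₃ - e₂ ≠ 0 := sub_ne_zero.2 (Ne.symm hne)
  have hq3 : ¬ (q : ℤ) ∣ e₃ := fun h => hq2 (by simpa using dvd_add hq23 h)
  have hp23 : ¬ (p : ℤ) ∣ (e₂ - e₃) := fun h => hp3 (by simpa using dvd_sub hp2 h)
  have vp2 : padicValInt p e₂ = 1 := val_eq (n := 1) (by rwa [pow_one]) hp2'
  have vp3 : padicValInt p e₃ = 0 := val_ndvd hp3
  have vp23 : padicValInt p (e₂ - e₃) = 0 := val_ndvd hp23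
  have vp32 : padicValInt p (e₃ - e₂) = 0 := by
    apply val_ndvd
    rwa [← neg_sub, dvd_neg]
  have vq2 : padicValInt q e₂ = 0 := val_ndvd hq2
  have vq3 : padicValInt q e₃ = 0 := val_ndvd hq3
  have vq23 : padicValInt q (e₂ - e₃) = 1 := val_eq (n := 1) (by rwa [pow_one]) hq23'
  have vq32 : padicValInt q (e₃ - e₂) = 1 := by
    refine val_eq (n := 1) ?_ ?_
    · rw [pow_one, ← neg_sub, dvd_neg]; exact hq23
    · rw [← neg_sub, dvd_neg]; exact hq23'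
  have np2 : padicValInt p (-e₂) = 1 := by
    refine val_eq (n := 1) ?_ ?_
    · rw [pow_one, dvd_neg]; exact hp2
    · rw [dvd_neg]; exact hp2'
  have nq2 : padicValInt q (-e₂) = 0 := val_ndvd (by rwa [dvd_neg])
  have wp : padicValInt p (e₂ * (e₂ - e₃)) = 1 := by rw [padicValInt.mul he2 hd0, vp2, vp23]
  have wq : padicValInt q (e₂ * (e₂ - e₃)) = 1 := by rw [padicValInt.mul he2 hd0, vq2, vq23]
  obtain ⟨s1, s2⟩ := cls_sqf hcl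
  obtain ⟨⟨f₁, f₂, hf, q1, q2⟩, ⟨g₁, g₂, hg, q3, q4⟩, ⟨k₁, k₂, hk, q5, q6⟩⟩ :=
    hT e₂ e₃ d₁ d₂ he2 he3 hne hcl
  by_cases c1 : (p : ℤ) ∣ d₂ <;> by_cases c2 : (q : ℤ) ∣ d₂
  · have a1 := val_sqf s2 c1
    have a2 := val_sqf s2 c2
    obtain ⟨t1, t2⟩ := cls_sqf hg
    have b1 := val_translate (p := p) s2.ne_zero t2 (mul_ne_zero he2 hd0) q4 ⟨1, by rw [a1, wp]⟩
    have b2 := val_translate (p := q) s2.ne_zero t2 (mul_ne_zero he2 hd0) q4 ⟨1, by rw [a2, wq]⟩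
    obtain ⟨rfl, rfl⟩ := hyp _ _ hg b1 b2
    rw [mul_one] at q3 q4
    exact Or.inr (Or.inr (Or.inl ⟨q3, q4⟩))
  · have a1 := val_sqf s2 c1
    have a2 := val_ndvd (p := q) c2
    obtain ⟨t1, t2⟩ := cls_sqf hf
    have b1 := val_translate (p := p) s2.ne_zero t2 (neg_ne_zero.2 he2) q2 ⟨1, by rw [a1, np2]⟩
    have b2 := val_translate (p := q) s2.ne_zero t2 (neg_ne_zero.2 he2) q2 ⟨0, by rw [a2, nq2]⟩
    obtain ⟨rfl, rfl⟩ := hyp _ _ hf b1 b2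
    rw [mul_one] at q1 q2
    exact Or.inr (Or.inl ⟨q1, q2⟩)
  · have a1 := val_ndvd (p := p) c1
    have a2 := val_sqf s2 c2
    obtain ⟨t1, t2⟩ := cls_sqf hk
    have b1 := val_translate (p := p) s2.ne_zero t2 hd0' q6 ⟨0, by rw [a1, vp32]⟩
    have b2 := val_translate (p := q) s2.ne_zero t2 hd0' q6 ⟨1, by rw [a2, vq32]⟩
    obtain ⟨rfl, rfl⟩ := hyp _ _ hk b1 b2
    rw [mul_one] at q5 q6
    exact Or.inr (Or.inr (Or.inr ⟨q5, q6⟩))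
  · obtain ⟨rfl, rfl⟩ := hyp _ _ hcl c1 c2
    exact Or.inl ⟨IsSquare.one, IsSquare.one⟩

end Pool.Agent.NJ.H32
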