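import Pool.Agent.Helper32_NJ.Stmts

set_option autoImplicit false

/-!
# Module PTS (squad NJ): integral data of a rational point
-/

namespace Pool.Agent.NJ.H32

open Pool.Agent.NJ

theorem sqf_part (a : ℤ) : ∃ d A : ℤ, Squarefree d ∧ a = d * A ^ 2 := by
  obtain ⟨c, b, h1, h2⟩ := Nat.sq_mul_squarefree a.natAbs
  have h3 : Squarefree (c : ℤ) := by
    rw [← Int.squarefree_natAbs]
    simpa using h2
  rcases Int.natAbs_eq a with h | h
  · refine ⟨c, b, h3, ?_⟩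
    rw [h, ← h1]
    push_cast
    ring
  · refine ⟨-c, b, ?_, ?_⟩
    · rw [← Int.squarefree_natAbs]
      simpa using h2
    · rw [h, ← h1]
      push_cast
      ring

theorem pts : PTSStmt := by
  intro e₂ e₃ X Y hY h
  obtain ⟨n, hn⟩ : ∃ n : ℤ, n = X.num := ⟨_, rfl⟩
  obtain ⟨m, hm⟩ : ∃ m : ℤ, m = (X.den : ℤ) := ⟨_, rfl⟩
  have m0 : (0 : ℤ) < m := by
    rw [hm]
    exact_mod_cast X.den_pos
  have mQ : (m : ℚ) ≠ 0 := by exact_mod_cast m0.ne'
  have hX : X = (n : ℚ) / m := by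
    rw [hn, hm]
    push_cast
    exact (Rat.num_div_den X).symm
  have hcop : IsCoprime n m := by
    rw [Int.isCoprime_iff_gcd_eq_one, hn, hm, Int.gcd, Int.natAbs_natCast]
    exact X.reduced
  obtain ⟨N, hN⟩ : ∃ N : ℤ, N = n * (n - e₂ * m) * (n - e₃ * m) := ⟨_, rfl⟩
  have hW : (Y * m ^ 2) ^ 2 = ((m * N : ℤ) : ℚ) := by
    rw [mul_pow, h, hX, hN]
    push_cast
    field_simp
  obtain ⟨W, hW'⟩ : ∃ W : ℤ, m * N = W ^ 2 := by
    have h1 : IsSquare (((m * N : ℤ) : ℚ)) := ⟨Y * m ^ 2, by rw [← hW]; ring⟩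
    have h2 : IsSquare (m * N : ℤ) := by
      rw [← Rat.isSquare_intCast_iff]
      exact h1
    obtain ⟨W, hW⟩ := h2
    exact ⟨W, by rw [hW]; ring⟩
  have hcN : IsCoprime m N := by
    have h1 : IsCoprime m n := hcop.symm
    have h2 : IsCoprime m (n - e₂ * m) := by
      have := h1.add_mul_right_right (-e₂)
      have e : n + -e₂ * m = n - e₂ * m := by ring
      rwa [e] at this
    have h3 : IsCoprime m (n - e₃ * m) := by
      have := h1.add_mul_right_right (-e₃)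
      have e : n + -e₃ * m = n - e₃ * m := by ring
      rwa [e] at this
    rw [hN]
    exact (h1.mul_right h2).mul_right h3
  obtain ⟨s, hs⟩ : ∃ s : ℤ, m = s ^ 2 := by
    obtain ⟨s, hs⟩ := Int.sq_of_isCoprime hcN hW'
    rcases hs with hs | hs
    · exact ⟨s, hs⟩
    · exfalso
      have : 0 ≤ s ^ 2 := sq_nonneg s
      omega
  have s0 : s ≠ 0 := by
    rintro rfl
    rw [hs] at m0
    simp at m0
  obtain ⟨w, hw⟩ : s ∣ W := by
    rw [← Int.pow_dvd_pow_iff two_ne_zero]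
    exact ⟨N, by rw [← hW', hs]⟩
  have hwN : w ^ 2 = N := by
    have h1 : s ^ 2 * w ^ 2 = s ^ 2 * N := by
      rw [← mul_pow, ← hw, ← hW', hs]
    exact mul_left_cancel₀ (pow_ne_zero 2 s0) h1
  have w0 : w ≠ 0 := by
    rintro rfl
    have h1 : N = 0 := by rw [← hwN]; ring
    rw [h1, mul_zero, Int.cast_zero] at hW
    have h2 := pow_eq_zero_iff (two_ne_zero) |>.1 hW
    rcases mul_eq_zero.1 h2 with h3 | h3
    · exact hY h3
    · exact pow_ne_zero 2 mQ h3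
  have N0 : N ≠ 0 := by rw [← hwN]; exact pow_ne_zero 2 w0
  have hr0 : n ≠ 0 := by
    rintro h0
    rw [hN, h0] at N0
    simp at N0
  have hr2 : n - e₂ * s ^ 2 ≠ 0 := by
    rw [← hs]
    intro h0
    rw [hN, h0] at N0
    simp at N0
  obtain ⟨d₁, A, q1, a1⟩ := sqf_part n
  obtain ⟨d₂, B, q2, a2⟩ := sqf_part (n - e₂ * s ^ 2)
  refine ⟨d₁, d₂, n, s, w, A, B, ⟨s0, w0, ?_, ?_, q1, q2, a1, a2⟩, ?_⟩
  · rw [hs] at hcop
    exact (IsCoprime.pow_right_iff (by norm_num)).1 hcop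
  · rw [hwN, hN, hs]
  · rw [hX, hs]
    push_cast
    rfl

end Pool.Agent.NJ.H32
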