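import Pool.Agent.Helper32_NJ.Asm
import Pool.Agent.Helper32_NJ.An3
import Pool.Agent.Helper32_NJ.Hlv
import Pool.Agent.Helper32_NJ.Pts
import Pool.Agent.Helper32_NJ.Nrr
import Pool.Agent.Helper32_NJ.Dlb
import Pool.Agent.Helper32_NJ.Dkb
import Pool.Agent.Helper32_NJ.Dra
import Pool.Agent.Helper32_NJ.Dka
import Pool.Agent.Helper15_NJ.Ark
import Pool.Agent.Helper15_NJ.Arr
import Pool.Agent.Helper19_NJ.Drb
import Pool.Agent.Helper21_NJ.Tw
import Pool.Agent.Helper24_NJ.Gen
import Pool.Agent.Helper24_NJ.Nis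
import Pool.Agent.Helper27_NJ.Tor
import Pool.Agent.Helper31_NJ.St3
import Pool.Agent.Helper33_NJ.Fib
import Pool.Agent.Helper33_NJ.Par
import Pool.Agent.Helper36_NJ.Plc
import Pool.Agent.Helper36_NJ.Pol
import Pool.Agent.Helper37_NJ.Gdr
import Pool.Agent.Helper46_NJ.Dma
import Pool.Agent.Helper46_NJ.Exk
import Pool.Agent.Helper47_NJ.Deg
import Pool.Agent.Helper47_NJ.Rk0
import Pool.Agent.Helper48_NJ.Tw3
import Pool.Agent.Helper50_NJ.St0
import Pool.Agent.Helper56_NJ.Crit
import Pool.Agent.Helper56_NJ.Two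
import Pool.Agent.Helper58_NJ.St56
import Pool.Agent.Helper59_NJ.St4
import Pool.Agent.Helper63_NJ.Dmb
import Pool.Agent.Helper63_NJ.Exl
import Pool.Agent.Helper63_NJ.Sup
import Pool.Agent.Helper75_NJ.Bad
import Pool.Agent.Helper75_NJ.Dla
import Pool.Agent.Helper81_NJ.Mul
import Pool.Agent.Helper81_NJ.St2
import Pool.Agent.Helper93_NJ.NRM
import Pool.Agent.Helper93_NJ.SQF
import Pool.Agent.Helper94_NJ.Trn
import Pool.Agent.Helper9_NJ.Exr

/-!
# All modules together
-/

set_option autoImplicit false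

namespace Pool.Agent.NJ

theorem crit_all : CRITStmt := H56.crit H32.pts H32.hlv H56.two

theorem trn_all : TRNStmt := H94.trn H32.pts

theorem nrm_all : NRMStmt := H93.nRM trn_all

theorem nrr_all : NRRStmt := H32.nrr trn_all

theorem dra_all : DRAStmt :=
  H32.dra H63.sup H81.mul H50.st0 H81.st2 H21.tw1 H48.rea H93.sQF

theorem drb_all : DRBStmt := H19.drb dra_all nrr_all crit_all

theorem dka_all : DKAStmt :=
  H32.dka H63.sup H81.mul H50.st0 H31.st3 H59.st4 H21.tw1 H48.rea H93.sQF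

theorem dkb_all : DKBStmt := H32.dkb dka_all nrm_all crit_all

theorem dla_all : DLAStmt :=
  H75.dla H63.sup H50.st0 H81.st2 H31.st3 H58.st5 H58.st6 H21.tw2 H48.rea H93.sQF

theorem dlb_all : DLBStmt := H32.dlb dla_all nrm_all crit_all

theorem dma_all : DMAStmt :=
  H46.dma H63.sup H50.st0 H81.st2 H31.st3 H58.st5 H58.st6 H48.tw3 H48.rea H93.sQF

theorem dmb_all : DMBStmt := H63.dmb dma_all nrm_all crit_all

theorem ark_all : ARKStmt :=
  H15.ark dkb_all dlb_all dmb_all (H46X.exk an) (H63.exl an)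

theorem arr_all : ARRStmt := H15.arr drb_all (H9.exr an)

theorem par_all : PARStmt := H33.par arr_all ark_all

theorem bad_all : BADStmt := H75.bad H37.gdr H36.plc

theorem main_all (tws : TWSStmt) : MainStmt :=
  main_of H27.tor H36.pol H24.nis bad_all H47.deg tws par_all H33.fib H47.rk0 H24.gen_thm

end Pool.Agent.NJ
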