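import Pool.Agent.Helper32_NJ.Defs

/-!
# Statements of the modules of squad NJ (MP_ba5221_nt)
-/

set_option autoImplicit false

namespace Pool.Agent.NJ

open Polynomial

/-! ## Part 1: complete 2-descent -/

/-- Every rational point of `Y² = X (X - e₂) (X - e₃)` has `Y = 0`. -/
def Triv (e₂ e₃ : ℚ) : Prop := ∀ X Y : ℚ, Y ^ 2 = X * (X - e₂) * (X - e₃) → Y = 0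

/-- Integral data of the rational point `X = r / s²`, `Y = w / s³ ≠ 0`; `d₁`, `d₂` are the
squarefree classes of `X` and of `X - e₂`. -/
structure Pt (e₂ e₃ d₁ d₂ r s w A B : ℤ) : Prop where
  s0 : s ≠ 0
  w0 : w ≠ 0
  cop : IsCoprime r s
  eq : w ^ 2 = r * (r - e₂ * s ^ 2) * (r - e₃ * s ^ 2)
  sq1 : Squarefree d₁
  sq2 : Squarefree d₂
  h1 : r = d₁ * A ^ 2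
  h2 : r - e₂ * s ^ 2 = d₂ * B ^ 2

/-- The pair of classes `(d₁, d₂)` occurs. -/
def Cls (e₂ e₃ d₁ d₂ : ℤ) : Prop := ∃ r s w A B : ℤ, Pt e₂ e₃ d₁ d₂ r s w A B

/-- The pair of classes is that of a 2-torsion point. -/
def InT (e₂ e₃ d₁ d₂ : ℤ) : Prop :=
  (IsSquare d₁ ∧ IsSquare d₂) ∨
  (IsSquare (d₁ * (e₂ * e₃)) ∧ IsSquare (d₂ * (-e₂))) ∨
  (IsSquare (d₁ * e₂) ∧ IsSquare (d₂ * (e₂ * (e₂ - e₃)))) ∨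
  (IsSquare (d₁ * e₃) ∧ IsSquare (d₂ * (e₃ - e₂)))

def PTSStmt : Prop := ∀ (e₂ e₃ : ℤ) (X Y : ℚ), Y ≠ 0 → Y ^ 2 = X * (X - e₂) * (X - e₃) →
  ∃ d₁ d₂ r s w A B : ℤ, Pt e₂ e₃ d₁ d₂ r s w A B ∧ X = (r : ℚ) / (s : ℚ) ^ 2

def TRNStmt : Prop := ∀ e₂ e₃ d₁ d₂ : ℤ, e₂ ≠ 0 → e₃ ≠ 0 → e₂ ≠ e₃ → Cls e₂ e₃ d₁ d₂ →
  (∃ f₁ f₂ : ℤ, Cls e₂ e₃ f₁ f₂ ∧ IsSquare (d₁ * f₁ * (e₂ * e₃)) ∧ IsSquare (d₂ * f₂ * (-e₂))) ∧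
  (∃ f₁ f₂ : ℤ, Cls e₂ e₃ f₁ f₂ ∧ IsSquare (d₁ * f₁ * e₂) ∧
    IsSquare (d₂ * f₂ * (e₂ * (e₂ - e₃)))) ∧
  (∃ f₁ f₂ : ℤ, Cls e₂ e₃ f₁ f₂ ∧ IsSquare (d₁ * f₁ * e₃) ∧ IsSquare (d₂ * f₂ * (e₃ - e₂)))

/-- halving -/
def HLVStmt : Prop := ∀ e₂ e₃ r s t : ℚ, e₂ ≠ 0 → e₃ ≠ 0 → e₂ ≠ e₃ →
  r ^ 2 - e₂ = s ^ 2 → r ^ 2 - e₃ = t ^ 2 →
  ∃ ξ η : ℚ, η ≠ 0 ∧ η ^ 2 = ξ * (ξ - e₂) * (ξ - e₃) ∧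
    r ^ 2 * (4 * η ^ 2) = (ξ ^ 2 - e₂ * e₃) ^ 2

/-- 2-adic size of the double -/
def TWOStmt : Prop := ∀ e₂ e₃ : ℤ, e₃ ≠ 0 → e₂ % 4 = 2 → (4 : ℤ) ∣ e₃ →
  ∀ ξ η X : ℚ, η ≠ 0 → η ^ 2 = ξ * (ξ - e₂) * (ξ - e₃) →
    X * (4 * η ^ 2) = (ξ ^ 2 - e₂ * e₃) ^ 2 →
    padicValRat 2 X < 0 ∧ (padicValRat 2 ξ < 0 → padicValRat 2 X = padicValRat 2 ξ - 2)

/-- the descent criterion -/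
def CRITStmt : Prop := ∀ e₂ e₃ : ℤ, e₂ ≠ 0 → e₃ ≠ 0 → e₂ ≠ e₃ →
  ((e₂ % 4 = 2 ∧ (4 : ℤ) ∣ e₃) ∨ (e₃ % 4 = 2 ∧ (4 : ℤ) ∣ e₂)) →
  (∀ d₁ d₂ : ℤ, Cls e₂ e₃ d₁ d₂ → InT e₂ e₃ d₁ d₂) → Triv e₂ e₃

/-- supports of the classes -/
def SUPStmt : Prop := ∀ e₂ e₃ d₁ d₂ r s w A B : ℤ, Pt e₂ e₃ d₁ d₂ r s w A B →
  ∀ p : ℕ, p.Prime →
    ((p : ℤ) ∣ d₁ → (p : ℤ) ∣ e₂ ∨ (p : ℤ) ∣ e₃) ∧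
    ((p : ℤ) ∣ d₂ → (p : ℤ) ∣ e₂ ∨ (p : ℤ) ∣ (e₂ - e₃)) ∧
    ((p : ℤ) ∣ e₂ → ¬ (p : ℤ) ∣ e₃ → ((p : ℤ) ∣ d₁ ↔ (p : ℤ) ∣ d₂))

/-- multiplicative prime `l`, `e₁ ≡ e₃` -/
def MULStmt : Prop := ∀ e₂ e₃ d₁ d₂ r s w A B : ℤ, Pt e₂ e₃ d₁ d₂ r s w A B →
  ∀ (l : ℕ) [Fact l.Prime], l ≠ 2 → ¬ (l : ℤ) ∣ e₂ → (l : ℤ) ∣ e₃ → ¬ (l : ℤ) ^ 2 ∣ e₃ →
    ((l : ℤ) ∣ d₁ → legendreSym l d₂ = legendreSym l (-e₂)) ∧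
    (¬ (l : ℤ) ∣ d₁ → legendreSym l d₂ = 1)

def ST0Stmt : Prop := ∀ e₂ e₃ d₁ d₂ r s w A B : ℤ, Pt e₂ e₃ d₁ d₂ r s w A B →
  ∀ (p : ℕ) [Fact p.Prime], p ≠ 2 → (p : ℤ) ∣ e₂ → (p : ℤ) ∣ e₃ →
    (¬ (p : ℤ) ^ 2 ∣ e₂ ∨ ¬ (p : ℤ) ^ 2 ∣ e₃) → ¬ (p : ℤ) ∣ d₁ → ¬ (p : ℤ) ∣ d₂ →
    legendreSym p d₁ = 1 ∧ legendreSym p d₂ = 1

def ST2Stmt : Prop := ∀ e₂ e₃ d₁ d₂ r s w A B : ℤ, Pt e₂ e₃ d₁ d₂ r s w A B →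
  ∀ (p : ℕ) [Fact p.Prime], p ≠ 2 → (p : ℤ) ∣ e₂ → ¬ (p : ℤ) ^ 2 ∣ e₂ → (p : ℤ) ^ 2 ∣ e₃ →
    ¬ (p : ℤ) ∣ d₂ → legendreSym p d₂ = 1

def ST3Stmt : Prop := ∀ e₂ e₃ d₁ d₂ r s w A B : ℤ, Pt e₂ e₃ d₁ d₂ r s w A B →
  ∀ (p : ℕ) [Fact p.Prime] (f₂ g₂ : ℤ), p ≠ 2 → e₂ = p * f₂ → ¬ (p : ℤ) ∣ f₂ →
    (p : ℤ) ^ 2 ∣ e₃ → d₂ = p * g₂ → legendreSym p g₂ = legendreSym p (-f₂)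

def ST4Stmt : Prop := ∀ e₂ e₃ d₁ d₂ r s w A B : ℤ, Pt e₂ e₃ d₁ d₂ r s w A B →
  ∀ (p : ℕ) [Fact p.Prime] (f₂ g₁ : ℤ), p ≠ 2 → e₂ = p * f₂ → ¬ (p : ℤ) ∣ f₂ →
    (p : ℤ) ^ 2 ∣ (e₂ - e₃) → d₁ = p * g₁ → ¬ (p : ℤ) ∣ d₂ →
    legendreSym p g₁ = legendreSym p f₂

def ST5Stmt : Prop := ∀ e₂ e₃ d₁ d₂ r s w A B : ℤ, Pt e₂ e₃ d₁ d₂ r s w A B →
  ∀ (p : ℕ) [Fact p.Prime] (f₂ g₂ : ℤ), p ≠ 2 → e₂ = p * f₂ → ¬ (p : ℤ) ∣ f₂ →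
    (p : ℤ) ^ 2 ∣ (e₂ - e₃) → ¬ (p : ℤ) ∣ d₁ → d₂ = p * g₂ →
    legendreSym p g₂ = legendreSym p (-f₂)

def ST6Stmt : Prop := ∀ e₂ e₃ d₁ d₂ r s w A B : ℤ, Pt e₂ e₃ d₁ d₂ r s w A B →
  ∀ (p : ℕ) [Fact p.Prime] (f₂ h g₁ g₂ : ℤ), p ≠ 2 → e₂ = p * f₂ → ¬ (p : ℤ) ∣ f₂ →
    e₂ - e₃ = (p : ℤ) ^ 2 * h → ¬ (p : ℤ) ∣ h → d₁ = p * g₁ → d₂ = p * g₂ →
    legendreSym p g₂ = legendreSym p (f₂ * h)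

/-- the prime 2, recipes R and K -/
def TW1Stmt : Prop := ∀ e₂ e₃ d₁ d₂ r s w A B : ℤ, Pt e₂ e₃ d₁ d₂ r s w A B →
  e₂ % 16 = 2 → (16 : ℤ) ∣ e₃ →
    (d₂ % 8 = 1 ∧ (d₁ % 8 = 1 ∨ d₁ % 8 = 3 ∨ d₁ % 16 = 2 ∨ d₁ % 16 = 6)) ∨ d₂ % 16 = 14

/-- the prime 2, recipe K1, `κ = 1` -/
def TW2Stmt : Prop := ∀ e₂ e₃ d₁ d₂ r s w A B : ℤ, Pt e₂ e₃ d₁ d₂ r s w A B →
  e₂ % 32 = 28 → e₃ % 16 = 14 →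
    (d₂ % 8 = 1 ∧ (d₁ % 8 = 1 ∨ d₁ % 16 = 2)) ∨ d₂ % 8 = 7 ∨ d₂ % 16 = 2 ∨ d₂ % 16 = 14

/-- the prime 2, recipe K1, `κ = -1` -/
def TW3Stmt : Prop := ∀ e₂ e₃ d₁ d₂ r s w A B : ℤ, Pt e₂ e₃ d₁ d₂ r s w A B →
  e₂ % 32 = 4 → e₃ % 16 = 2 →
    (d₂ % 8 = 1 → d₁ % 8 = 1) ∧ (d₂ % 8 = 7 → d₁ % 16 = 2)

/-- the real place -/
def REAStmt : Prop := ∀ e₂ e₃ d₁ d₂ r s w A B : ℤ, Pt e₂ e₃ d₁ d₂ r s w A B →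
  (0 < e₂ → 0 < d₂ → 0 < d₁) ∧ (e₂ < 0 → 0 < e₃ → 0 < d₂)

/-- squarefree integers supported on two or three primes -/
def SQFStmt : Prop := ∀ (d : ℤ) (q r : ℕ), Squarefree d → q.Prime → r.Prime → q ≠ 2 → r ≠ 2 →
  q ≠ r →
  ((∀ p : ℕ, p.Prime → (p : ℤ) ∣ d → p = 2 ∨ p = q) →
    ∃ ε : ℤ, (ε = 1 ∨ ε = -1) ∧ (d = ε ∨ d = ε * 2 ∨ d = ε * q ∨ d = ε * (2 * q))) ∧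
  ((∀ p : ℕ, p.Prime → (p : ℤ) ∣ d → p = 2 ∨ p = q ∨ p = r) →
    ∃ ε : ℤ, (ε = 1 ∨ ε = -1) ∧ (d = ε ∨ d = ε * 2 ∨ d = ε * q ∨ d = ε * (2 * q) ∨
      d = ε * r ∨ d = ε * (2 * r) ∨ d = ε * (q * r) ∨ d = ε * (2 * (q * r))))

/-! ## Part 2: the recipes -/

structure RecR (k : ℤ) (p₁ p₂ p₃ : ℕ) : Prop where
  sqf : Squarefree k
  pr1 : p₁.Prime
  pr2 : p₂.Prime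
  pr3 : p₃.Prime
  m1 : p₁ % 8 = 5
  m3 : p₃ % 8 = 5
  h2 : (p₂ : ℤ) = 8 * k * p₃ - p₁ ∨ (p₂ : ℤ) = p₁ - 8 * k * p₃
  ne : p₁ ≠ p₃
  big1 : k.natAbs < p₁
  big3 : k.natAbs < p₃
  leg : ∀ (l : ℕ) [Fact l.Prime], l ≠ 2 → (l : ℤ) ∣ k → legendreSym l (-2 * p₁ * p₃) = -1

structure RecK (k : ℤ) (p₁ p₂ p₃ : ℕ) : Prop where
  sqf : Squarefree k
  pr1 : p₁.Prime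
  pr2 : p₂.Prime
  pr3 : p₃.Prime
  m1 : p₁ % 8 = 5
  m3 : p₃ % 8 = 5
  h2 : (p₂ : ℤ) = p₁ + 8 * k * p₃
  ne : p₁ ≠ p₃
  big1 : k.natAbs < p₁
  big3 : k.natAbs < p₃
  leg : ∀ (l : ℕ) [Fact l.Prime], l ≠ 2 → (l : ℤ) ∣ k → legendreSym l (-2 * p₁ * p₃) = -1
  legk : ∀ [Fact p₁.Prime], legendreSym p₁ k = -1

structure RecL (p₁ p₂ p₃ : ℕ) : Prop where
  pr1 : p₁.Prime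
  pr2 : p₂.Prime
  pr3 : p₃.Prime
  m1 : p₁ % 8 = 3
  m3 : p₃ % 8 = 5
  h2 : p₂ = 2 * p₁ + p₃
  ne : p₁ ≠ p₃

/-- normalisation at a prime `p` with `v(e₂) = 2`, `v(e₃) = 1` -/
def NRMStmt : Prop := ∀ (e₂ e₃ : ℤ) (p : ℕ), p.Prime → e₂ ≠ e₃ → (p : ℤ) ^ 2 ∣ e₂ →
  ¬ (p : ℤ) ^ 3 ∣ e₂ → (p : ℤ) ∣ e₃ → ¬ (p : ℤ) ^ 2 ∣ e₃ →
  (∀ d₁ d₂ : ℤ, Cls e₂ e₃ d₁ d₂ → ¬ (p : ℤ) ∣ d₁ → ¬ (p : ℤ) ∣ d₂ → d₁ = 1 ∧ d₂ = 1) →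
  ∀ d₁ d₂ : ℤ, Cls e₂ e₃ d₁ d₂ → InT e₂ e₃ d₁ d₂

/-- normalisation for `R` -/
def NRRStmt : Prop := ∀ (e₂ e₃ : ℤ) (p q : ℕ), p.Prime → q.Prime → p ≠ q → e₃ ≠ 0 → e₂ ≠ e₃ →
  (p : ℤ) ∣ e₂ → ¬ (p : ℤ) ^ 2 ∣ e₂ → ¬ (p : ℤ) ∣ e₃ →
  (q : ℤ) ∣ (e₂ - e₃) → ¬ (q : ℤ) ^ 2 ∣ (e₂ - e₃) → ¬ (q : ℤ) ∣ e₂ →
  (∀ d₁ d₂ : ℤ, Cls e₂ e₃ d₁ d₂ → ¬ (p : ℤ) ∣ d₂ → ¬ (q : ℤ) ∣ d₂ → d₁ = 1 ∧ d₂ = 1) →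
  ∀ d₁ d₂ : ℤ, Cls e₂ e₃ d₁ d₂ → InT e₂ e₃ d₁ d₂

/-- core of the descent for `R` -/
def DRAStmt : Prop := ∀ (k : ℤ) (p₁ p₂ p₃ : ℕ), RecR k p₁ p₂ p₃ → ∀ d₁ d₂ : ℤ,
  Cls (2 * p₁ * p₃) (16 * k * p₃ ^ 2) d₁ d₂ → ¬ (p₁ : ℤ) ∣ d₂ → ¬ (p₂ : ℤ) ∣ d₂ →
    d₁ = 1 ∧ d₂ = 1

def DRBStmt : Prop := ∀ (k : ℤ) (p₁ p₂ p₃ : ℕ), RecR k p₁ p₂ p₃ →
  Triv (2 * p₁ * p₃) (16 * k * p₃ ^ 2)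

/-- core of the descent for `K` -/
def DKAStmt : Prop := ∀ (k : ℤ) (p₁ p₂ p₃ : ℕ), RecK k p₁ p₂ p₃ → ∀ d₁ d₂ : ℤ,
  Cls (2 * p₁ ^ 2 * p₂ * p₃) (-16 * k * p₁ * p₂ * p₃ ^ 2) d₁ d₂ →
    ¬ (p₁ : ℤ) ∣ d₁ → ¬ (p₁ : ℤ) ∣ d₂ → d₁ = 1 ∧ d₂ = 1

def DKBStmt : Prop := ∀ (k : ℤ) (p₁ p₂ p₃ : ℕ), RecK k p₁ p₂ p₃ →
  Triv (2 * p₁ ^ 2 * p₂ * p₃) (-16 * k * p₁ * p₂ * p₃ ^ 2)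

/-- core of the descent for `K₁` -/
def DLAStmt : Prop := ∀ (p₁ p₂ p₃ : ℕ), RecL p₁ p₂ p₃ → ∀ d₁ d₂ : ℤ,
  Cls (4 * p₁ ^ 2 * p₂ * p₃) (-2 * p₁ * p₂ * p₃ ^ 2) d₁ d₂ →
    ¬ (p₁ : ℤ) ∣ d₁ → ¬ (p₁ : ℤ) ∣ d₂ → d₁ = 1 ∧ d₂ = 1

/-- core of the descent for `K₋₁` -/
def DMAStmt : Prop := ∀ (p₁ p₂ p₃ : ℕ), RecL p₁ p₂ p₃ → ∀ d₁ d₂ : ℤ,
  Cls (-4 * p₁ ^ 2 * p₂ * p₃) (2 * p₁ * p₂ * p₃ ^ 2) d₁ d₂ →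
    ¬ (p₁ : ℤ) ∣ d₁ → ¬ (p₁ : ℤ) ∣ d₂ → d₁ = 1 ∧ d₂ = 1

def DLBStmt : Prop := ∀ (p₁ p₂ p₃ : ℕ), RecL p₁ p₂ p₃ →
  Triv (4 * p₁ ^ 2 * p₂ * p₃) (-2 * p₁ * p₂ * p₃ ^ 2)

def DMBStmt : Prop := ∀ (p₁ p₂ p₃ : ℕ), RecL p₁ p₂ p₃ →
  Triv (-4 * p₁ ^ 2 * p₂ * p₃) (2 * p₁ * p₂ * p₃ ^ 2)

/-- The main theorem on primes: `a p + b q` prime, `p, q` in residue classes. -/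
def ANStmt : Prop := ∀ (a b u v : ℤ) (M : ℕ), IsCoprime a b → a ≠ 0 → b ≠ 0 → 0 < M → 2 ∣ M →
  IsCoprime u (M : ℤ) → IsCoprime v (M : ℤ) → IsCoprime (a * u + b * v) (M : ℤ) →
  (0 < a ∨ 0 < b) → ∀ N : ℕ, ∃ p q l : ℕ, p.Prime ∧ q.Prime ∧ l.Prime ∧ N < p ∧ N < q ∧ p ≠ q ∧
    (p : ℤ) ≡ u [ZMOD M] ∧ (q : ℤ) ≡ v [ZMOD M] ∧ (l : ℤ) = a * p + b * q

def EXRStmt : Prop := ∀ k : ℤ, Squarefree k → ∀ N : ℕ, ∃ p₁ p₂ p₃ : ℕ,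
  RecR k p₁ p₂ p₃ ∧ N < p₁

def EXKStmt : Prop := ∀ k : ℤ, Squarefree k → k ≠ 1 → k ≠ -1 → ∀ N : ℕ, ∃ p₁ p₂ p₃ : ℕ,
  RecK k p₁ p₂ p₃ ∧ N < p₁

def EXLStmt : Prop := ∀ N : ℕ, ∃ p₁ p₂ p₃ : ℕ, RecL p₁ p₂ p₃ ∧ N < p₁

/-- type R: differences of the roots `k z (x, y, z)`, `r = x / z` -/
def ARRStmt : Prop := ∀ k : ℚ, k ≠ 0 → {r : ℚ | Triv (-(k * r)) k}.Infinite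

/-- type K: differences of the roots `k x y z (x, y, z)`, `r = x / z` -/
def ARKStmt : Prop := ∀ k : ℚ, k ≠ 0 →
  {r : ℚ | Triv (k * r ^ 2 * (1 + r)) (-(k * r * (1 + r)))}.Infinite

/-! ## Part 3: structure of the curves -/

/-- the 2-division polynomial has the roots `e₁, e₂, e₃` -/
def Roots {F : Type} [Field F] (W : WeierstrassCurve F) (e₁ e₂ e₃ : F) : Prop :=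
  W.b₂ = -4 * (e₁ + e₂ + e₃) ∧ W.b₄ = 2 * (e₁ * e₂ + e₁ * e₃ + e₂ * e₃) ∧
    W.b₆ = -4 * (e₁ * e₂ * e₃)

def TORStmt : Prop := ∀ W : WeierstrassCurve (RatFunc ℚ), W.Δ ≠ 0 → FullTwo W →
  ∃ e₁ e₂ e₃ : RatFunc ℚ, Roots W e₁ e₂ e₃ ∧ e₁ ≠ e₂ ∧ e₂ ≠ e₃ ∧ e₃ ≠ e₁

/-- differences of the roots, in polynomial form -/
structure Dif (e₁ e₂ e₃ : RatFunc ℚ) (u : RatFunc ℚ) (δ x y z : ℚ[X]) : Prop where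
  u0 : u ≠ 0
  d0 : δ ≠ 0
  x0 : x ≠ 0
  y0 : y ≠ 0
  z0 : z ≠ 0
  sum : x + y + z = 0
  cop : IsCoprime x y
  h12 : e₁ - e₂ = u ^ 2 * algebraMap ℚ[X] (RatFunc ℚ) (δ * x)
  h23 : e₂ - e₃ = u ^ 2 * algebraMap ℚ[X] (RatFunc ℚ) (δ * y)
  h31 : e₃ - e₁ = u ^ 2 * algebraMap ℚ[X] (RatFunc ℚ) (δ * z)

def POLStmt : Prop := ∀ e₁ e₂ e₃ : RatFunc ℚ, e₁ ≠ e₂ → e₂ ≠ e₃ → e₃ ≠ e₁ →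
  ∃ (u : RatFunc ℚ) (δ x y z : ℚ[X]), Dif e₁ e₂ e₃ u δ x y z

/-- nonisotriviality -/
def NISStmt : Prop := ∀ E : WeierstrassCurve ℚ[X], E.Δ ≠ 0 → Nonisotrivial E →
  ∀ (e₁ e₂ e₃ u : RatFunc ℚ) (δ x y z : ℚ[X]), Roots (gen E) e₁ e₂ e₃ →
    Dif e₁ e₂ e₃ u δ x y z → ¬ (x.natDegree = 0 ∧ y.natDegree = 0)

/-- good reduction in terms of the roots -/
def GDRStmt : Prop := ∀ (W : WeierstrassCurve (RatFunc ℂ)) (A : ValuationSubring (RatFunc ℂ))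
  (e₁ e₂ e₃ : RatFunc ℂ), (∀ c : ℂ, RatFunc.C c ∈ A) → Roots W e₁ e₂ e₃ → GoodAt W A →
  ∃ v : RatFunc ℂ, v ≠ 0 ∧
    (e₁ - e₂) / v ^ 2 ∈ A ∧ ((e₁ - e₂) / v ^ 2)⁻¹ ∈ A ∧
    (e₂ - e₃) / v ^ 2 ∈ A ∧ ((e₂ - e₃) / v ^ 2)⁻¹ ∈ A ∧
    (e₃ - e₁) / v ^ 2 ∈ A ∧ ((e₃ - e₁) / v ^ 2)⁻¹ ∈ A ∧
    e₁ - e₂ ≠ 0 ∧ e₂ - e₃ ≠ 0 ∧ e₃ - e₁ ≠ 0

/-- the places of the projective line, with their orders -/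
def PLCStmt : Prop :=
  (∀ t : ℂ, ∃ (A : ValuationSubring (RatFunc ℂ)) (v : RatFunc ℂ → ℤ), IsPlace A ∧
    (∀ f g : RatFunc ℂ, f ≠ 0 → g ≠ 0 → v (f * g) = v f + v g) ∧
    (∀ f : RatFunc ℂ, f ≠ 0 → (f ∈ A ↔ 0 ≤ v f)) ∧
    (∀ p : ℂ[X], p ≠ 0 → v (algebraMap ℂ[X] (RatFunc ℂ) p) = (p.rootMultiplicity t : ℤ))) ∧
  (∃ (A : ValuationSubring (RatFunc ℂ)) (v : RatFunc ℂ → ℤ), IsPlace A ∧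
    (∀ f g : RatFunc ℂ, f ≠ 0 → g ≠ 0 → v (f * g) = v f + v g) ∧
    (∀ f : RatFunc ℂ, f ≠ 0 → (f ∈ A ↔ 0 ≤ v f)) ∧
    (∀ p : ℂ[X], p ≠ 0 → v (algebraMap ℂ[X] (RatFunc ℂ) p) = -(p.natDegree : ℤ)))

/-- at most three bad places, in polynomial form -/
def Few (δ x y z : ℚ[X]) : Prop :=
  ∀ F : Finset ℂ, (∀ t ∈ F, aeval t (x * y * z) = 0 ∨
      Odd ((δ.map (algebraMap ℚ ℂ)).rootMultiplicity t)) →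
    F.card ≤ 3 ∧ (¬ (x.natDegree = y.natDegree ∧ y.natDegree = z.natDegree ∧
      Even (δ.natDegree + x.natDegree)) → F.card ≤ 2)

def BADStmt : Prop := ∀ E : WeierstrassCurve ℚ[X], E.Δ ≠ 0 → (badPlaces E).encard ≤ 3 →
  ∀ (e₁ e₂ e₃ u : RatFunc ℚ) (δ x y z : ℚ[X]), Roots (gen E) e₁ e₂ e₃ →
    Dif e₁ e₂ e₃ u δ x y z → Few δ x y z

/-- `x, y, z` are linear forms -/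
def DEGStmt : Prop := ∀ δ x y z : ℚ[X], δ ≠ 0 → x ≠ 0 → y ≠ 0 → z ≠ 0 → x + y + z = 0 →
  IsCoprime x y → ¬ (x.natDegree = 0 ∧ y.natDegree = 0) → Few δ x y z →
  x.natDegree ≤ 1 ∧ y.natDegree ≤ 1 ∧ z.natDegree ≤ 1

/-- the twisting factor -/
def TWSStmt : Prop := ∀ δ x y z : ℚ[X], δ ≠ 0 → x ≠ 0 → y ≠ 0 → z ≠ 0 → x + y + z = 0 →
  IsCoprime x y → ¬ (x.natDegree = 0 ∧ y.natDegree = 0) → x.natDegree ≤ 1 → y.natDegree ≤ 1 →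
  z.natDegree ≤ 1 → Few δ x y z →
  ∃ (k : ℚ) (s : ℚ[X]), k ≠ 0 ∧ s ≠ 0 ∧ (δ = C k * s ^ 2 * x ∨ δ = C k * s ^ 2 * y ∨
    δ = C k * s ^ 2 * z ∨ δ = C k * s ^ 2 * (x * y * z))

/-- infinitely many parameters -/
def PARStmt : Prop := ∀ (δ x y z : ℚ[X]) (k : ℚ) (s : ℚ[X]), x + y + z = 0 → IsCoprime x y →
  x ≠ 0 → y ≠ 0 → z ≠ 0 →
  ¬ (x.natDegree = 0 ∧ y.natDegree = 0) → x.natDegree ≤ 1 → y.natDegree ≤ 1 → z.natDegree ≤ 1 →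
  k ≠ 0 → s ≠ 0 → (δ = C k * s ^ 2 * x ∨ δ = C k * s ^ 2 * y ∨
    δ = C k * s ^ 2 * z ∨ δ = C k * s ^ 2 * (x * y * z)) →
  {t : ℚ | Triv (-((δ * x).eval t)) ((δ * z).eval t)}.Infinite

/-- all rational points are killed by 2 -/
def Two {F : Type} [Field F] (W : WeierstrassCurve F) : Prop :=
  ∀ X Y : F, W.toAffine.Equation X Y → 2 * Y + W.a₁ * X + W.a₃ = 0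

/-- the fibres -/
def FIBStmt : Prop := ∀ (E : WeierstrassCurve ℚ[X]) (e₁ e₂ e₃ u : RatFunc ℚ) (δ x y z : ℚ[X]),
  E.Δ ≠ 0 → Roots (gen E) e₁ e₂ e₃ → Dif e₁ e₂ e₃ u δ x y z →
  {t : ℚ | Triv (-((δ * x).eval t)) ((δ * z).eval t)}.Infinite →
  {t : ℚ | (fib E t).Δ ≠ 0 ∧ Two (fib E t)}.Infinite

/-- the rank of a curve all of whose points are killed by 2 -/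
def RK0Stmt : Prop := ∀ (F : Type) [Field F] (W : WeierstrassCurve F), Two W → rk W = 0

/-- the generic fibre -/
def GENStmt : Prop := ∀ E : WeierstrassCurve ℚ[X], E.Δ ≠ 0 →
  {t : ℚ | (fib E t).Δ ≠ 0 ∧ Two (fib E t)}.Infinite → Two (gen E)

/-- The final theorem. -/
def MainStmt : Prop := ∀ E : WeierstrassCurve ℚ[X], E.Δ ≠ 0 → Nonisotrivial E →
  FullTwo (gen E) → (badPlaces E).encard ≤ 3 →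
  rk (gen E) = 0 ∧ (nonJumping E).Infinite

end Pool.Agent.NJ
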