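import Pool.Agent.Helper91_SP.Deg
import Pool.Agent.Helper71_SP.Assemble
import Pool.Agent.Helper32_NJ.Stmts

/-!
# Primes `a p + b q` with `p`, `q` in residue classes: local densities and main term
-/

set_option autoImplicit false

namespace Pool.Agent.NJ

open Real Filter Topology
open Pool.Agent.Common_Sieve
open Pool.Agent.Helper91_SP

lemma cnt_ge_odd (a b x : ℤ) (hab : IsCoprime a b) (p : ℕ) (hp : p.Prime)
    (hpx : ¬ (p : ℤ) ∣ x) : (p : ℝ) - 2 ≤ (cnt (PP a b x) p : ℝ) := by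
  have hpi : Prime (p : ℤ) := Nat.prime_iff_prime_int.1 hp
  have h1 : ((Finset.range p).filter (fun r : ℕ => ¬ PP a b x p (r : ℤ))).card ≤ 2 := by
    have hsub : (Finset.range p).filter (fun r : ℕ => ¬ PP a b x p (r : ℤ)) ⊆
        (Finset.range p).filter (fun r : ℕ => (p : ℤ) ∣ (r : ℤ)) ∪
        (Finset.range p).filter (fun r : ℕ => (p : ℤ) ∣ (a * x + b * (r : ℤ))) := by
      intro r hr
      rw [Finset.mem_filter] at hr
      rw [Finset.mem_union, Finset.mem_filter, Finset.mem_filter]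
      by_cases h : (p : ℤ) ∣ (r : ℤ)
      · exact Or.inl ⟨hr.1, h⟩
      · right
        refine ⟨hr.1, ?_⟩
        by_contra h'
        exact hr.2 ⟨h, h'⟩
    have hA : ((Finset.range p).filter (fun r : ℕ => (p : ℤ) ∣ (r : ℤ))).card ≤ 1 := by
      rw [Finset.card_le_one]
      intro r hr r' hr'
      rw [Finset.mem_filter, Finset.mem_range] at hr hr'
      have e1 := Nat.eq_zero_of_dvd_of_lt (Int.natCast_dvd_natCast.1 hr.2) hr.1
      have e2 := Nat.eq_zero_of_dvd_of_lt (Int.natCast_dvd_natCast.1 hr'.2) hr'.1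
      rw [e1, e2]
    have hB : ((Finset.range p).filter
        (fun r : ℕ => (p : ℤ) ∣ (a * x + b * (r : ℤ)))).card ≤ 1 := by
      rw [Finset.card_le_one]
      intro r hr r' hr'
      rw [Finset.mem_filter, Finset.mem_range] at hr hr'
      have h3 : (p : ℤ) ∣ b * ((r : ℤ) - r') := by
        have := dvd_sub hr.2 hr'.2
        have h4 : a * x + b * (r : ℤ) - (a * x + b * r') = b * ((r : ℤ) - r') := by ring
        rwa [h4] at this
      rcases hpi.dvd_or_dvd h3 with h4 | h4
      · exfalso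
        have h5 : (p : ℤ) ∣ a * x := by
          have := dvd_sub hr.2 (h4.mul_right (r : ℤ))
          simpa using this
        rcases hpi.dvd_or_dvd h5 with h6 | h6
        · obtain ⟨u, v, huv⟩ := hab
          apply hpi.not_isUnit
          apply isUnit_of_dvd_one
          rw [← huv]
          exact dvd_add (h6.mul_left u) (h4.mul_left v)
        · exact hpx h6
      · by_contra hne
        have h5 : ((r : ℤ) - r').natAbs < p := by omega
        have h6 := Int.eq_zero_of_abs_lt_dvd h4 (by rw [Int.abs_eq_natAbs]; exact_mod_cast h5)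
        omega
    exact (Finset.card_le_card hsub).trans ((Finset.card_union_le _ _).trans (by omega))
  have h3 := Finset.card_filter_add_card_filter_not (s := Finset.range p)
    (fun r : ℕ => PP a b x p (r : ℤ))
  rw [Finset.card_range] at h3
  have h4 : p ≤ cnt (PP a b x) p + 2 := by
    unfold cnt
    omega
  have h5 : (p : ℝ) ≤ cnt (PP a b x) p + 2 := by exact_mod_cast h4
  linarith

/-- product over a set of odd primes -/
lemma prod_half (w : ℕ) (D : Finset ℕ) (hD : D ⊆ (Finset.range (w + 1)).filter Nat.Prime)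
    (h2 : 2 ∉ D) :
    (1 : ℝ) / 2 ≤ ∏ p ∈ D, ((p : ℝ) * ((p : ℝ) - 2) / ((p : ℝ) - 1) ^ 2) := by
  rcases Nat.lt_or_ge w 2 with hw | hw
  · have : D = ∅ := by
      apply Finset.subset_empty.1
      refine hD.trans ?_
      interval_cases w <;> decide
    rw [this]; norm_num
  have hw' : (2 : ℝ) ≤ w := by exact_mod_cast hw
  set F := (Finset.range (w + 1)).filter Nat.Prime with hF
  have h2F : 2 ∈ F := by
    rw [hF, Finset.mem_filter, Finset.mem_range]
    exact ⟨by omega, Nat.prime_two⟩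
  have hp := prod_ge w hw
  rw [← Finset.mul_prod_erase F _ h2F] at hp
  have h4 : (1 : ℝ) ≤ (w : ℝ) / (w - 1) := by
    rw [le_div_iff₀ (by linarith)]; linarith
  have h5 : ∏ p ∈ F.erase 2, ((p : ℝ) * (if p = 2 then 1 else (p : ℝ) - 2) / ((p : ℝ) - 1) ^ 2)
      = ∏ p ∈ F.erase 2, ((p : ℝ) * ((p : ℝ) - 2) / ((p : ℝ) - 1) ^ 2) := by
    apply Finset.prod_congr rfl
    intro p hp
    rw [if_neg (Finset.ne_of_mem_erase hp)]
  rw [h5] at hp
  have h6 : (1 : ℝ) / 2 ≤ ∏ p ∈ F.erase 2, ((p : ℝ) * ((p : ℝ) - 2) / ((p : ℝ) - 1) ^ 2) := by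
    generalize (∏ p ∈ F.erase 2, ((p : ℝ) * ((p : ℝ) - 2) / ((p : ℝ) - 1) ^ 2)) = P at hp ⊢
    norm_num at hp
    linarith
  refine h6.trans ?_
  have hsub : D ⊆ F.erase 2 := by
    intro p hp
    rw [Finset.mem_erase]
    refine ⟨?_, hD hp⟩
    rintro rfl
    exact h2 hp
  rw [← Finset.prod_sdiff hsub]
  have hpos : ∀ p ∈ F.erase 2, (0 : ℝ) ≤ ((p : ℝ) * ((p : ℝ) - 2) / ((p : ℝ) - 1) ^ 2) ∧
      ((p : ℝ) * ((p : ℝ) - 2) / ((p : ℝ) - 1) ^ 2) ≤ 1 := by
    intro p hp
    have hpp := (Finset.mem_filter.1 (Finset.mem_of_mem_erase hp)).2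
    have h7 : (2 : ℝ) ≤ p := by exact_mod_cast hpp.two_le
    constructor
    · apply div_nonneg _ (by positivity)
      apply mul_nonneg <;> linarith
    · rw [div_le_one (by nlinarith)]
      nlinarith
  calc (∏ p ∈ (F.erase 2) \ D, ((p : ℝ) * ((p : ℝ) - 2) / ((p : ℝ) - 1) ^ 2)) *
        ∏ p ∈ D, ((p : ℝ) * ((p : ℝ) - 2) / ((p : ℝ) - 1) ^ 2)
      ≤ 1 * ∏ p ∈ D, ((p : ℝ) * ((p : ℝ) - 2) / ((p : ℝ) - 1) ^ 2) := by
        apply mul_le_mul_of_nonneg_right
        · apply Finset.prod_le_one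
          · intro p hp
            exact (hpos p (Finset.mem_sdiff.1 hp).1).1
          · intro p hp
            exact (hpos p (Finset.mem_sdiff.1 hp).1).2
        · apply Finset.prod_nonneg
          intro p hp
          exact (hpos p (hsub hp)).1
    _ = _ := one_mul _

/-- local densities, over a set of odd primes -/
lemma density_half (a b x : ℤ) (hab : IsCoprime a b) (w : ℕ)
    (D : Finset ℕ) (hD : D ⊆ (Finset.range (w + 1)).filter Nat.Prime) (h2 : 2 ∉ D)
    (hx : ∀ p ∈ D, ¬ (p : ℤ) ∣ x) :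
    (Nat.totient (∏ p ∈ D, p) : ℝ) ^ 2 ≤ 2 * ((∏ p ∈ D, p : ℕ) : ℝ) *
      (((Finset.range (∏ p ∈ D, p)).filter
        (fun r : ℕ => ∀ p ∈ D, PP a b x p (r : ℤ))).card : ℝ) := by
  have hDp : ∀ p ∈ D, p.Prime := fun p hp => (Finset.mem_filter.1 (hD hp)).2
  rw [card_range_prod (PP a b x) (PP_periodic a b x) D hDp, totient_prod D hDp]
  push_cast
  have h1 : ∀ p ∈ D, (0 : ℝ) < ((p - 1 : ℕ) : ℝ) := by
    intro p hp
    have := (hDp p hp).two_le
    have : 0 < p - 1 := by omega
    exact_mod_cast this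
  rw [mul_assoc, ← Finset.prod_pow, ← Finset.prod_mul_distrib]
  have h2' : (1 : ℝ) / 2 ≤ ∏ p ∈ D, ((p : ℝ) * (cnt (PP a b x) p : ℝ) / ((p - 1 : ℕ) : ℝ) ^ 2) := by
    refine (prod_half w D hD h2).trans ?_
    apply Finset.prod_le_prod
    · intro p hp
      have h7 : (2 : ℝ) ≤ p := by exact_mod_cast (hDp p hp).two_le
      apply div_nonneg _ (by positivity)
      apply mul_nonneg <;> linarith
    · intro p hp
      have hp' := hDp p hp
      have h5 : ((p - 1 : ℕ) : ℝ) = (p : ℝ) - 1 := by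
        rw [Nat.cast_sub hp'.one_lt.le]; simp
      rw [h5]
      apply div_le_div_of_nonneg_right _ (by positivity)
      apply mul_le_mul_of_nonneg_left _ (by positivity)
      exact cnt_ge_odd a b x hab p hp' (hx p hp)
  rw [Finset.prod_div_distrib, le_div_iff₀ (Finset.prod_pos (fun p hp => by
    have := h1 p hp; positivity))] at h2'
  linarith

end Pool.Agent.NJ
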