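import Pool.Agent.Helper32_NJ.An1

/-!
# The main term with residue classes
-/

set_option autoImplicit false

namespace Pool.Agent.NJ

open Real Filter Topology
open Pool.Agent.Common_Sieve
open Pool.Agent.Helper91_SP

theorem mainTerm (a b u v : ℤ) (M : ℕ) (x0 x1 y0 y1 : ℝ) (hab : IsCoprime a b)
    (hM : 0 < M) (h2M : 2 ∣ M) (hv : IsCoprime v (M : ℤ))
    (huv : IsCoprime (a * u + b * v) (M : ℤ))
    (hx0 : 0 < x0) (hy0 : 0 < y0) (hy01 : y0 < y1)
    (hpos : ∀ x ∈ Set.Icc x0 x1, ∀ y ∈ Set.Icc y0 y1, 0 < (a : ℝ) * x + b * y) (w : ℕ) :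
    ∃ K : ℕ, ∀ k : ℕ, K ≤ k → ∀ x : ℕ, x.Prime → x0 * k < x → (x : ℝ) ≤ x1 * k →
      (x : ℤ) ≡ u [ZMOD M] →
      (y1 - y0) / (8 * M.totient) * k / log k ≤
      ((primorial w : ℝ) / (Nat.totient (primorial w))) *
        (((PW k y0 y1).filter (fun p : ℕ => (p : ℤ) ≡ v [ZMOD M] ∧
          Nat.Coprime (a * (x : ℤ) + b * (p : ℤ)).toNat (primorial w))).card : ℝ) := by
  classical
  -- the residue v as a natural number
  obtain ⟨v', hv'⟩ : ∃ v' : ℕ, (v' : ℤ) ≡ v [ZMOD M] := by
    refine ⟨(v % M).toNat, ?_⟩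
    have hM' : (M : ℤ) ≠ 0 := by exact_mod_cast hM.ne'
    rw [Int.toNat_of_nonneg (Int.emod_nonneg _ hM')]
    exact Int.mod_modEq _ _
  have hv'co : Nat.Coprime v' M := by
    rw [← Nat.isCoprime_iff_coprime]
    obtain ⟨t, ht⟩ := hv'.symm.dvd
    have : (v' : ℤ) = v + M * t := by linarith
    rw [this]
    exact (IsCoprime.add_mul_left_left_iff).2 hv
  set D := (Finset.range (w + 1)).filter (fun p => p.Prime ∧ ¬ p ∣ M) with hD
  set D' := (Finset.range (w + 1)).filter (fun p => p.Prime ∧ p ∣ M) with hD'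
  have hDp : ∀ p ∈ D, p.Prime := fun p hp => (Finset.mem_filter.1 hp).2.1
  have hDp' : ∀ p ∈ D', p.Prime := fun p hp => (Finset.mem_filter.1 hp).2.1
  have hDsub : D ⊆ (Finset.range (w + 1)).filter Nat.Prime := by
    intro p hp
    rw [Finset.mem_filter] at hp ⊢
    exact ⟨hp.1, hp.2.1⟩
  have h2D : 2 ∉ D := fun h => (Finset.mem_filter.1 h).2.2 h2M
  set W := ∏ p ∈ D, p with hW
  set W' := ∏ p ∈ D', p with hW'
  have hWW : primorial w = W * W' := by
    have h1 : primorial w = ∏ p ∈ (Finset.range (w + 1)).filter Nat.Prime, p := rfl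
    rw [h1, ← Finset.prod_filter_mul_prod_filter_not _ (fun p => ¬ p ∣ M), hW, hW', hD, hD']
    congr 1
    · rw [Finset.filter_filter]
    · rw [Finset.filter_filter]
      apply Finset.prod_congr _ (fun _ _ => rfl)
      apply Finset.filter_congr
      intro p _
      rw [not_not]
  have hWpos : 0 < W := Finset.prod_pos (fun p hp => (hDp p hp).pos)
  have hW'pos : 0 < W' := Finset.prod_pos (fun p hp => (hDp' p hp).pos)
  have hWM : Nat.Coprime W M := by
    apply Nat.Coprime.prod_left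
    intro p hp
    rw [(hDp p hp).coprime_iff_not_dvd]
    exact (Finset.mem_filter.1 hp).2.2
  have hWW' : Nat.Coprime W W' := by
    apply Nat.Coprime.prod_left
    intro p hp
    apply Nat.Coprime.prod_right
    intro q hq
    rw [Nat.coprime_primes (hDp p hp) (hDp' q hq)]
    rintro rfl
    exact (Finset.mem_filter.1 hp).2.2 (Finset.mem_filter.1 hq).2.2
  have hMW : Nat.Coprime M W := hWM.symm
  have hK : ∀ r : ℕ, ∃ K : ℕ, Nat.Coprime r (M * W) → ∀ k : ℕ, K ≤ k →
      (y1 - y0) / 4 * k / log k ≤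
      ((M * W).totient : ℝ) * (((PW k y0 y1).filter (fun p => p % (M * W) = r % (M * W))).card : ℝ) := by
    intro r
    by_cases hr : Nat.Coprime r (M * W)
    · obtain ⟨K, hK⟩ := ap_lower (M * W) (Nat.mul_pos hM hWpos) r hr y0 y1 hy0 hy01
      exact ⟨K, fun _ => hK⟩
    · exact ⟨0, fun h => absurd h hr⟩
  choose K hK using hK
  refine ⟨(Finset.range (M * W)).sup K + ⌈((w : ℝ) + 1) / x0⌉₊ + 3, fun k hk x hxp hx1 hx2 hxu => ?_⟩
  have hk3' : (3 : ℝ) ≤ k := by
    have : 3 ≤ k := by omega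
    exact_mod_cast this
  have hk0 : (0 : ℝ) < k := by linarith
  have hL : 0 < log k := log_pos (by linarith)
  have hkw : (w : ℝ) + 1 ≤ x0 * k := by
    have h1 : ⌈((w : ℝ) + 1) / x0⌉₊ ≤ k := by omega
    have h2 : ((w : ℝ) + 1) / x0 ≤ k := (Nat.le_ceil _).trans (Nat.cast_le.2 h1)
    rw [div_le_iff₀ hx0] at h2
    linarith
  have hwx : w < x := by
    have : (w : ℝ) < x := by linarith
    exact_mod_cast this
  have hxndvd : ∀ p ∈ D, ¬ (p : ℤ) ∣ (x : ℤ) := by
    intro p hp h
    have hpw : p < w + 1 := Finset.mem_range.1 (Finset.mem_filter.1 hp).1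
    have h1 := Int.natCast_dvd_natCast.1 h
    have := (Nat.prime_dvd_prime_iff_eq (hDp p hp) hxp).1 h1
    omega
  have hdens := density_half a b x hab w D hDsub h2D hxndvd
  rw [← hW] at hdens
  set R := (Finset.range W).filter
        (fun r : ℕ => ∀ p ∈ D, PP a b x p (r : ℤ)) with hR
  set G := (PW k y0 y1).filter (fun p : ℕ => (p : ℤ) ≡ v [ZMOD M] ∧
          Nat.Coprime (a * (x : ℤ) + b * (p : ℤ)).toNat (primorial w)) with hG
  set E := (y1 - y0) / 4 * k / log k with hE
  have hφ : (0 : ℝ) < W.totient := by exact_mod_cast Nat.totient_pos.2 hWpos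
  have hφM : (0 : ℝ) < M.totient := by exact_mod_cast Nat.totient_pos.2 hM
  have hWr : (0 : ℝ) < W := by exact_mod_cast hWpos
  -- each residue class
  have hcop : ∀ r ∈ R, Nat.Coprime r W := by
    intro r hr
    rw [hR, Finset.mem_filter] at hr
    rw [hW]
    apply Nat.Coprime.prod_right
    intro p hp
    apply Nat.Coprime.symm
    rw [(hDp p hp).coprime_iff_not_dvd]
    intro h
    exact (hr.2 p hp).1 (Int.natCast_dvd_natCast.2 h)
  have h1 : ∀ r ∈ R, E ≤ ((M * W).totient : ℝ) *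
      (((PW k y0 y1).filter (fun p : ℕ => (p : ℤ) ≡ v [ZMOD M] ∧ p % W = r)).card : ℝ) := by
    intro r hr
    set c := (Nat.chineseRemainder hMW v' r : ℕ) with hc
    have hc1 : c ≡ v' [MOD M] := (Nat.chineseRemainder hMW v' r).2.1
    have hc2 : c ≡ r [MOD W] := (Nat.chineseRemainder hMW v' r).2.2
    have hclt : c < M * W := Nat.chineseRemainder_lt_mul hMW v' r hM.ne' hWpos.ne'
    have hcco : Nat.Coprime c (M * W) := by
      apply Nat.Coprime.mul_right
      · have h3 := hc1.gcd_eq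
        rw [Nat.coprime_iff_gcd_eq_one, h3]
        exact hv'co
      · have h3 := hc2.gcd_eq
        rw [Nat.coprime_iff_gcd_eq_one, h3]
        exact hcop r hr
    have h2 := hK c hcco k (by
      have : K c ≤ (Finset.range (M * W)).sup K := Finset.le_sup (Finset.mem_range.2 hclt)
      omega)
    refine h2.trans ?_
    apply mul_le_mul_of_nonneg_left _ (Nat.cast_nonneg _)
    have h3 : (PW k y0 y1).filter (fun p => p % (M * W) = c % (M * W)) ⊆
        (PW k y0 y1).filter (fun p : ℕ => (p : ℤ) ≡ v [ZMOD M] ∧ p % W = r) := by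
      intro p hp
      rw [Finset.mem_filter] at hp ⊢
      have h4 : p ≡ c [MOD M * W] := hp.2
      refine ⟨hp.1, ?_, ?_⟩
      · have h5 : p ≡ v' [MOD M] := (h4.of_mul_right W).trans hc1
        exact (Int.natCast_modEq_iff.2 h5).trans hv'
      · have h5 : p ≡ r [MOD W] := (h4.of_mul_left M).trans hc2
        have h6 : r < W := Finset.mem_range.1 (Finset.mem_filter.1 hr).1
        have h7 : p % W = r % W := h5
        rw [h7, Nat.mod_eq_of_lt h6]
    exact_mod_cast Finset.card_le_card h3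
  -- summation
  have h2 : ∑ r ∈ R, (((PW k y0 y1).filter
      (fun p : ℕ => (p : ℤ) ≡ v [ZMOD M] ∧ p % W = r)).card : ℝ) ≤ G.card := by
    have h3 := Finset.card_eq_sum_card_fiberwise (f := fun p => p % W)
      (s := (PW k y0 y1).filter (fun p : ℕ => (p : ℤ) ≡ v [ZMOD M] ∧ p % W ∈ R)) (t := R)
      (fun p hp => (Finset.mem_filter.1 hp).2.2)
    have h4 : ∑ r ∈ R, ((PW k y0 y1).filter
          (fun p : ℕ => (p : ℤ) ≡ v [ZMOD M] ∧ p % W = r)).card
        = ∑ r ∈ R, (((PW k y0 y1).filter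
          (fun p : ℕ => (p : ℤ) ≡ v [ZMOD M] ∧ p % W ∈ R)).filter (fun p => p % W = r)).card := by
      apply Finset.sum_congr rfl
      intro r hr
      congr 1
      ext p
      simp only [Finset.mem_filter]
      constructor
      · rintro ⟨h5, h6, h7⟩; exact ⟨⟨h5, h6, h7 ▸ hr⟩, h7⟩
      · rintro ⟨⟨h5, h6, _⟩, h7⟩; exact ⟨h5, h6, h7⟩
    have h5 : (PW k y0 y1).filter (fun p : ℕ => (p : ℤ) ≡ v [ZMOD M] ∧ p % W ∈ R) ⊆ G := by
      intro p hp
      rw [Finset.mem_filter] at hp
      obtain ⟨hp1, hpv, hp2⟩ := hp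
      have hp3 := Finset.mem_filter.1 hp1
      rw [hG, Finset.mem_filter]
      refine ⟨hp1, hpv, ?_⟩
      have hval := pos_of_window hpos (k := k) (x := x) (p := p) (by omega) ⟨hx1, hx2⟩
        ⟨hp3.2.2.1, hp3.2.2.2⟩
      rw [hWW]
      apply Nat.Coprime.mul_right
      · rw [hW]
        apply Nat.Coprime.prod_right
        intro l hl
        apply Nat.Coprime.symm
        rw [(hDp l hl).coprime_iff_not_dvd]
        intro h
        have h6 : (l : ℤ) ∣ a * (x : ℤ) + b * (p : ℤ) := by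
          have := Int.natCast_dvd_natCast.2 h
          rwa [Int.toNat_of_nonneg hval.le] at this
        rw [hR, Finset.mem_filter] at hp2
        apply (hp2.2 l hl).2
        have h7 : (l : ℤ) ∣ (W : ℤ) := by
          rw [hW]
          exact Int.natCast_dvd_natCast.2 (Finset.dvd_prod_of_mem _ hl)
        have h8 : ((p % W : ℕ) : ℤ) = p - W * (p / W : ℕ) := by
          have := Nat.mod_add_div p W
          push_cast
          have h9 : ((p % W : ℕ) : ℤ) + W * (p / W : ℕ) = p := by exact_mod_cast this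
          push_cast at h9
          linarith
        rw [h8]
        have h10 : a * (x : ℤ) + b * ((p : ℤ) - W * (p / W : ℕ))
            = (a * (x : ℤ) + b * (p : ℤ)) - W * (b * (p / W : ℕ)) := by ring
        rw [h10]
        exact dvd_sub h6 (h7.mul_right _)
      · rw [hW']
        apply Nat.Coprime.prod_right
        intro l hl
        apply Nat.Coprime.symm
        rw [(hDp' l hl).coprime_iff_not_dvd]
        intro h
        have hlM : (l : ℤ) ∣ (M : ℤ) := Int.natCast_dvd_natCast.2 (Finset.mem_filter.1 hl).2.2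
        have h6 : (l : ℤ) ∣ a * (x : ℤ) + b * (p : ℤ) := by
          have := Int.natCast_dvd_natCast.2 h
          rwa [Int.toNat_of_nonneg hval.le] at this
        have h7 : a * (x : ℤ) + b * (p : ℤ) ≡ a * u + b * v [ZMOD M] :=
          (hxu.mul_left a).add (hpv.mul_left b)
        have h8 : (l : ℤ) ∣ (a * u + b * v) - (a * (x : ℤ) + b * (p : ℤ)) :=
          hlM.trans h7.dvd
        have h9 : (l : ℤ) ∣ a * u + b * v := by
          have := dvd_add h8 h6
          simpa using this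
        have h10 : IsUnit (l : ℤ) := huv.isUnit_of_dvd' h9 hlM
        exact (Nat.prime_iff_prime_int.1 (hDp' l hl)).not_isUnit h10
    have h6 : ∑ r ∈ R, ((PW k y0 y1).filter
        (fun p : ℕ => (p : ℤ) ≡ v [ZMOD M] ∧ p % W = r)).card ≤ G.card := by
      rw [h4, ← h3]
      exact Finset.card_le_card h5
    exact_mod_cast h6
  have h3 : (R.card : ℝ) * E ≤ ((M * W).totient : ℝ) * G.card := by
    calc (R.card : ℝ) * E = ∑ r ∈ R, E := by simp
      _ ≤ ∑ r ∈ R, ((M * W).totient : ℝ) * (((PW k y0 y1).filter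
          (fun p : ℕ => (p : ℤ) ≡ v [ZMOD M] ∧ p % W = r)).card : ℝ) :=
        Finset.sum_le_sum h1
      _ = ((M * W).totient : ℝ) * ∑ r ∈ R, (((PW k y0 y1).filter
          (fun p : ℕ => (p : ℤ) ≡ v [ZMOD M] ∧ p % W = r)).card : ℝ) := by
        rw [Finset.mul_sum]
      _ ≤ _ := mul_le_mul_of_nonneg_left h2 (Nat.cast_nonneg _)
  rw [Nat.totient_mul hMW] at h3
  push_cast at h3
  have hE0 : 0 ≤ E := div_nonneg (mul_nonneg (by linarith) hk0.le) hL.le
  have h4 : (W.totient : ℝ) ^ 2 * E ≤ 2 * (W : ℝ) * ((M.totient * W.totient : ℝ) * G.card) := by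
    calc (W.totient : ℝ) ^ 2 * E ≤ (2 * (W : ℝ) * R.card) * E :=
          mul_le_mul_of_nonneg_right hdens hE0
      _ = 2 * (W : ℝ) * (R.card * E) := by ring
      _ ≤ _ := mul_le_mul_of_nonneg_left h3 (by positivity)
  have h5 : (W.totient : ℝ) * E ≤ 2 * (W : ℝ) * M.totient * G.card := by
    have : (W.totient : ℝ) * ((W.totient : ℝ) * E)
        ≤ (W.totient : ℝ) * (2 * (W : ℝ) * M.totient * G.card) := by
      nlinarith
    exact le_of_mul_le_mul_left this hφ
  have h6 : E / (2 * M.totient) ≤ (W : ℝ) / W.totient * G.card := by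
    rw [div_mul_eq_mul_div, div_le_div_iff₀ (by positivity) hφ]
    nlinarith
  have h7 : (W : ℝ) / W.totient ≤ (primorial w : ℝ) / (Nat.totient (primorial w)) := by
    rw [hWW, Nat.totient_mul hWW']
    push_cast
    have hφ' : (0 : ℝ) < W'.totient := by exact_mod_cast Nat.totient_pos.2 hW'pos
    have h8 : (W'.totient : ℝ) ≤ W' := by exact_mod_cast Nat.totient_le W'
    rw [div_le_div_iff₀ hφ (by positivity)]
    nlinarith [mul_le_mul_of_nonneg_left h8 (mul_pos hWr hφ).le]
  have h8 : (y1 - y0) / (8 * M.totient) * k / log k = E / (2 * M.totient) := by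
    rw [hE]
    field_simp
    ring
  rw [h8]
  exact h6.trans (mul_le_mul_of_nonneg_right h7 (Nat.cast_nonneg _))

end Pool.Agent.NJ
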