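import Pool.Agent.Helper32_NJ.Stmts

/-!
# Assembly
-/

set_option autoImplicit false

namespace Pool.Agent.NJ

open Polynomial

theorem main_of (tor : TORStmt) (pol : POLStmt) (nis : NISStmt) (bad : BADStmt) (deg : DEGStmt)
    (tws : TWSStmt) (par : PARStmt) (fibS : FIBStmt) (rk0 : RK0Stmt) (genS : GENStmt) :
    MainStmt := by
  intro E hΔ hni h2 hb
  have hg : (gen E).Δ ≠ 0 := by
    unfold gen
    rw [WeierstrassCurve.map_Δ]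
    exact (map_ne_zero_iff _ (IsFractionRing.injective ℚ[X] (RatFunc ℚ))).2 hΔ
  obtain ⟨e₁, e₂, e₃, hR, h12, h23, h31⟩ := tor (gen E) hg h2
  obtain ⟨u, δ, x, y, z, hD⟩ := pol e₁ e₂ e₃ h12 h23 h31
  have hn := nis E hΔ hni e₁ e₂ e₃ u δ x y z hR hD
  have hf := bad E hΔ hb e₁ e₂ e₃ u δ x y z hR hD
  obtain ⟨hx, hy, hz⟩ := deg δ x y z hD.d0 hD.x0 hD.y0 hD.z0 hD.sum hD.cop hn hf
  obtain ⟨k, s, hk, hs, hδ⟩ := tws δ x y z hD.d0 hD.x0 hD.y0 hD.z0 hD.sum hD.cop hn hx hy hz hf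
  have hp := par δ x y z k s hD.sum hD.cop hD.x0 hD.y0 hD.z0 hn hx hy hz hk hs hδ
  have hF := fibS E e₁ e₂ e₃ u δ x y z hΔ hR hD hp
  have hG := rk0 (RatFunc ℚ) (gen E) (genS E hΔ hF)
  refine ⟨hG, hF.mono ?_⟩
  rintro t ⟨ht1, ht2⟩
  exact ⟨ht1, by rw [hG]; exact rk0 ℚ (fib E t) ht2⟩

end Pool.Agent.NJ
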