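import Mathlib

/-!
# Elliptic curves over ℚ(T): fibres, rank, places of ℂ(T), good reduction

The definitions used by the final theorem of MP_ba5221_nt (non-jumping fibres).
An elliptic curve over `ℚ(T)` is given by a Weierstrass equation `E` with coefficients in `ℚ[T]`
and nonzero discriminant.
-/

set_option autoImplicit false

namespace Pool.Agent.NJ

open Polynomial

noncomputable section

/-- The generic fibre: the curve over `ℚ(T)`. -/
def gen (E : WeierstrassCurve ℚ[X]) : WeierstrassCurve (RatFunc ℚ) :=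
  E.map (algebraMap ℚ[X] (RatFunc ℚ))

/-- The fibre at `T = t`. -/
def fib (E : WeierstrassCurve ℚ[X]) (t : ℚ) : WeierstrassCurve ℚ :=
  E.map (evalRingHom t)

/-- The same curve over `ℂ(T)`. -/
def genC (E : WeierstrassCurve ℚ[X]) : WeierstrassCurve (RatFunc ℂ) :=
  E.map ((algebraMap ℂ[X] (RatFunc ℂ)).comp (mapRingHom (algebraMap ℚ ℂ)))

open Classical in
/-- The Mordell-Weil rank. -/
def rk {F : Type} [Field F] (W : WeierstrassCurve F) : Cardinal :=
  Module.rank ℤ W.toAffine.Point

open Classical in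
/-- Full rational 2-torsion: there are exactly four rational points `P` with `2 P = 0`. -/
def FullTwo {F : Type} [Field F] (W : WeierstrassCurve F) : Prop :=
  Nat.card {P : W.toAffine.Point // 2 • P = 0} = 4

/-- A place of `ℂ(T)` over `ℂ`: a valuation ring of `ℂ(T)` which contains `ℂ` and is not the
whole field. (They correspond to the points of the projective line.) -/
def IsPlace (A : ValuationSubring (RatFunc ℂ)) : Prop :=
  (∀ c : ℂ, RatFunc.C c ∈ A) ∧ A ≠ ⊤

/-- Good reduction at a place: after a change of variables over `ℂ(T)` the coefficients lie in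
the valuation ring and the discriminant is a unit there. -/
def GoodAt (W : WeierstrassCurve (RatFunc ℂ)) (A : ValuationSubring (RatFunc ℂ)) : Prop :=
  ∃ C : WeierstrassCurve.VariableChange (RatFunc ℂ),
    (C • W).a₁ ∈ A ∧ (C • W).a₂ ∈ A ∧ (C • W).a₃ ∈ A ∧ (C • W).a₄ ∈ A ∧ (C • W).a₆ ∈ A ∧
      (C • W).Δ ≠ 0 ∧ ((C • W).Δ)⁻¹ ∈ A

/-- The set of the (geometric) places of bad reduction. -/
def badPlaces (E : WeierstrassCurve ℚ[X]) : Set (ValuationSubring (RatFunc ℂ)) :=
  {A | IsPlace A ∧ ¬ GoodAt (genC E) A}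

/-- `E` is nonisotrivial: the `j`-invariant `c₄³ / Δ` is not a constant. -/
def Nonisotrivial (E : WeierstrassCurve ℚ[X]) : Prop :=
  ∀ c : ℚ, E.c₄ ^ 3 ≠ C c * E.Δ

/-- The set `N(E)` of the problem. -/
def nonJumping (E : WeierstrassCurve ℚ[X]) : Set ℚ :=
  {t : ℚ | (fib E t).Δ ≠ 0 ∧ rk (fib E t) = rk (gen E)}

end

end Pool.Agent.NJ
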